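import Pool.Agent.Q230.CY.Sound

/-!
# The cyclic order of the occurrences of the variables
-/

set_option autoImplicit false

namespace Pool.Agent.Q230.CY

/-- the occurrences of a variable -/
def occs (n : ℕ) (var : ℕ → ℕ) (v : ℕ) : List ℕ := (List.range n).filter fun o => decide (var o = v)

/-- the next occurrence -/
def nxt (n : ℕ) (var : ℕ → ℕ) (o : ℕ) : ℕ :=
  (occs n var (var o)).getD (((occs n var (var o)).idxOf o + 1) % (occs n var (var o)).length) 0

/-- the previous occurrence -/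
def prv (n : ℕ) (var : ℕ → ℕ) (o : ℕ) : ℕ :=
  (occs n var (var o)).getD (((occs n var (var o)).idxOf o + ((occs n var (var o)).length - 1)) %
    (occs n var (var o)).length) 0

theorem mem_occs {n : ℕ} {var : ℕ → ℕ} {v o : ℕ} : o ∈ occs n var v ↔ o < n ∧ var o = v := by
  simp [occs]

theorem nodup_occs (n : ℕ) (var : ℕ → ℕ) (v : ℕ) : (occs n var v).Nodup :=
  List.nodup_range.filter _

theorem mod_a {j l : ℕ} (h : j < l) : ((j + 1) % l + (l - 1)) % l = j := by
  by_cases h1 : j + 1 < l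
  · rw [Nat.mod_eq_of_lt h1, show j + 1 + (l - 1) = j + l by omega, Nat.add_mod_right,
      Nat.mod_eq_of_lt h]
  · have h2 : j + 1 = l := by omega
    rw [h2, Nat.mod_self, Nat.zero_add, Nat.mod_eq_of_lt (by omega)]
    omega

theorem mod_b {j l : ℕ} (h : j < l) : ((j + (l - 1)) % l + 1) % l = j := by
  by_cases h1 : j = 0
  · subst h1
    rw [Nat.zero_add, Nat.mod_eq_of_lt (show l - 1 < l by omega), show l - 1 + 1 = l by omega,
      Nat.mod_self]
  · rw [show j + (l - 1) = (j - 1) + l by omega, Nat.add_mod_right,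
      Nat.mod_eq_of_lt (show j - 1 < l by omega), show j - 1 + 1 = j by omega, Nat.mod_eq_of_lt h]

theorem getD_mem' {l : List ℕ} {i : ℕ} (h : i < l.length) : l.getD i 0 ∈ l := by
  rw [List.getD_eq_getElem _ _ h]
  exact List.getElem_mem h

theorem idx_getD {l : List ℕ} (hl : l.Nodup) {i : ℕ} (h : i < l.length) :
    l.idxOf (l.getD i 0) = i := by
  rw [List.getD_eq_getElem _ _ h]
  exact hl.idxOf_getElem i h

theorem getD_idx {l : List ℕ} {o : ℕ} (h : o ∈ l) : l.getD (l.idxOf o) 0 = o := by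
  rw [List.getD_eq_getElem _ _ (List.idxOf_lt_length_of_mem h)]
  exact List.getElem_idxOf _

theorem cyc_occs (n : ℕ) (var : ℕ → ℕ) : Cyc n var (nxt n var) (prv n var) := by
  have hpos : ∀ o < n, 0 < (occs n var (var o)).length := fun o ho =>
    List.length_pos_of_mem (mem_occs.2 ⟨ho, rfl⟩)
  have hn : ∀ o < n, nxt n var o ∈ occs n var (var o) := fun o ho =>
    getD_mem' (Nat.mod_lt _ (hpos o ho))
  have hp : ∀ o < n, prv n var o ∈ occs n var (var o) := fun o ho =>
    getD_mem' (Nat.mod_lt _ (hpos o ho))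
  refine ⟨fun o ho => (mem_occs.1 (hn o ho)).1, fun o ho => (mem_occs.1 (hp o ho)).1, ?_, ?_,
    fun o ho => (mem_occs.1 (hn o ho)).2, ?_⟩
  · intro o ho
    have h1 := (mem_occs.1 (hn o ho)).2
    have h2 : o ∈ occs n var (var o) := mem_occs.2 ⟨ho, rfl⟩
    have h3 := List.idxOf_lt_length_of_mem h2
    unfold prv
    rw [h1]
    unfold nxt
    rw [idx_getD (nodup_occs _ _ _) (Nat.mod_lt _ (hpos o ho)), mod_a h3, getD_idx h2]
  · intro o ho
    have h1 := (mem_occs.1 (hp o ho)).2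
    have h2 : o ∈ occs n var (var o) := mem_occs.2 ⟨ho, rfl⟩
    have h3 := List.idxOf_lt_length_of_mem h2
    unfold nxt
    rw [h1]
    unfold prv
    rw [idx_getD (nodup_occs _ _ _) (Nat.mod_lt _ (hpos o ho)), mod_b h3, getD_idx h2]
  · intro Q hQ
    have key : ∀ o < n, ∀ j < (occs n var (var o)).length,
        (Q ((occs n var (var o)).getD j 0) ↔ Q ((occs n var (var o)).getD 0 0)) := by
      intro o ho j
      induction j with
      | zero => intro _; rfl
      | succ j ih =>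
        intro hj
        have h1 := getD_mem' (l := occs n var (var o)) (i := j) (by omega)
        obtain ⟨h2, h3⟩ := mem_occs.1 h1
        rw [← ih (by omega), hQ _ h2]
        have e : nxt n var ((occs n var (var o)).getD j 0) = (occs n var (var o)).getD (j + 1) 0 := by
          unfold nxt
          rw [h3, idx_getD (nodup_occs _ _ _) (by omega), Nat.mod_eq_of_lt hj]
        rw [e]
    intro o ho o' ho' he
    have h2 : o ∈ occs n var (var o) := mem_occs.2 ⟨ho, rfl⟩
    have h2' : o' ∈ occs n var (var o) := mem_occs.2 ⟨ho', he.symm⟩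
    have h3 := key o ho _ (List.idxOf_lt_length_of_mem h2)
    have h4 := key o ho _ (List.idxOf_lt_length_of_mem h2')
    rw [getD_idx h2] at h3
    rw [getD_idx h2'] at h4
    exact h3.trans h4.symm

/-! ### Positive exactly-one-in-three satisfiability -/

/-- positive exactly-one-in-three satisfiability -/
def Mono (φ : List (ℕ × ℕ × ℕ)) : Prop :=
  ∃ τ : ℕ → Bool, ∀ c ∈ φ, One (τ c.1 = true) (τ c.2.1 = true) (τ c.2.2 = true)

/-- the variable of an occurrence -/
def vr (φ : List (ℕ × ℕ × ℕ)) (o : ℕ) : ℕ :=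
  if o % 3 = 0 then (φ.getD (o / 3) (0, 0, 0)).1
  else if o % 3 = 1 then (φ.getD (o / 3) (0, 0, 0)).2.1 else (φ.getD (o / 3) (0, 0, 0)).2.2

theorem vr0 (φ : List (ℕ × ℕ × ℕ)) (i : ℕ) : vr φ (3 * i) = (φ.getD i (0, 0, 0)).1 := by
  unfold vr
  rw [if_pos (by omega), show 3 * i / 3 = i by omega]

theorem vr1 (φ : List (ℕ × ℕ × ℕ)) (i : ℕ) : vr φ (3 * i + 1) = (φ.getD i (0, 0, 0)).2.1 := by
  unfold vr
  rw [if_neg (by omega), if_pos (by omega), show (3 * i + 1) / 3 = i by omega]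

theorem vr2 (φ : List (ℕ × ℕ × ℕ)) (i : ℕ) : vr φ (3 * i + 2) = (φ.getD i (0, 0, 0)).2.2 := by
  unfold vr
  rw [if_neg (by omega), if_neg (by omega), show (3 * i + 2) / 3 = i by omega]

/-- the instance -/
def inst (φ : List (ℕ × ℕ × ℕ)) : Inst :=
  ins φ.length (nxt (3 * φ.length) (vr φ)) (prv (3 * φ.length) (vr φ))

theorem correct (φ : List (ℕ × ℕ × ℕ)) :
    (Mono φ → ∃ M, IsMatching (inst φ) M ∧ CycleStable (inst φ) M) ∧
      ((∃ M, IsMatching (inst φ) M ∧ ThreeCycleStable (inst φ) M) → Mono φ) := by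
  classical
  constructor
  · rintro ⟨τ, hτ⟩
    have H := cyc_occs (3 * φ.length) (vr φ)
    refine complete H (s := fun o => τ (vr φ o)) (fun o ho => by rw [H.var_nxt o ho]) ?_
    intro o ho
    obtain ⟨i, hi⟩ : ∃ i, i = o / 3 := ⟨_, rfl⟩
    have hi' : i < φ.length := by omega
    have h := hτ (φ.getD i (0, 0, 0)) (by
      rw [List.getD_eq_getElem _ _ hi']
      exact List.getElem_mem hi')
    rw [← vr0, ← vr1, ← vr2] at h
    have n0 : nx (3 * i) = 3 * i + 1 := by unfold nx; omega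
    have n1 : nx (3 * i + 1) = 3 * i + 2 := by unfold nx; omega
    have n2 : nx (3 * i + 2) = 3 * i := by unfold nx; omega
    have p0 : pv (3 * i) = 3 * i + 2 := by unfold pv; omega
    have p1 : pv (3 * i + 1) = 3 * i := by unfold pv; omega
    have p2 : pv (3 * i + 2) = 3 * i + 1 := by unfold pv; omega
    unfold One at h
    simp only [Bool.not_eq_true] at h
    have : o = 3 * i ∨ o = 3 * i + 1 ∨ o = 3 * i + 2 := by omega
    rcases this with rfl | rfl | rfl
    · rw [n0, p0]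
      rcases h with ⟨h1, h2, h3⟩ | ⟨h1, h2, h3⟩ | ⟨h1, h2, h3⟩ <;> simp [h1, h2, h3]
    · rw [n1, p1]
      rcases h with ⟨h1, h2, h3⟩ | ⟨h1, h2, h3⟩ | ⟨h1, h2, h3⟩ <;> simp [h1, h2, h3]
    · rw [n2, p2]
      rcases h with ⟨h1, h2, h3⟩ | ⟨h1, h2, h3⟩ | ⟨h1, h2, h3⟩ <;> simp [h1, h2, h3]
  · rintro ⟨M, h1, h2⟩
    obtain ⟨τ, hτ⟩ := Sol.assign ⟨cyc_occs (3 * φ.length) (vr φ), h1, h2⟩
    refine ⟨fun v => decide (τ v), ?_⟩
    intro c hc
    obtain ⟨i, hi, rfl⟩ := List.getElem_of_mem hc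
    have := hτ i hi
    rw [vr0, vr1, vr2, List.getD_eq_getElem _ _ hi] at this
    simpa using this

end Pool.Agent.Q230.CY
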