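import Pool.Agent.NPC.Classes

/-!
# Cycle stable matchings in the stable roommates problem with bounded lists: definitions
-/

set_option autoImplicit false

namespace Pool.Agent.Q230.CY

/-- An instance of the stable roommates problem with incomplete lists: the agents are
`0, …, n-1` where `n` is the length, and entry `a` is the preference list of agent `a`, best agent
first. -/
abbrev Inst : Type := List (List ℕ)

/-- the preference list of agent `a` -/
def prefs (I : Inst) (a : ℕ) : List ℕ := I.getD a []

/-- The lists have no repetitions, contain only agents, nobody is on his own list, and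
acceptability is mutual. -/
def Valid (I : Inst) : Prop :=
  ∀ a < I.length, (prefs I a).Nodup ∧ ∀ b ∈ prefs I a, b < I.length ∧ b ≠ a ∧ a ∈ prefs I b

/-- `M` is a matching, written as the list of the partners of the agents `0, …, n-1`; an
unassigned agent is its own partner. -/
def IsMatching (I : Inst) (M : List ℕ) : Prop :=
  M.length = I.length ∧ ∀ a < I.length, M.getD a 0 < I.length ∧ M.getD (M.getD a 0) 0 = a ∧
    (M.getD a 0 = a ∨ M.getD a 0 ∈ prefs I a)

/-- Agent `a` finds `b` acceptable and is unassigned in `M` or prefers `b` to its partner. -/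
def Wants (I : Inst) (M : List ℕ) (a b : ℕ) : Prop :=
  b ∈ prefs I a ∧
    (M.getD a 0 = a ∨ (prefs I a).idxOf b < (prefs I a).idxOf (M.getD a 0))

/-- A blocking cycle: a sequence of at least two distinct agents, each of which wants the next
one, cyclically. -/
def BlockingCycle (I : Inst) (M : List ℕ) (c : List ℕ) : Prop :=
  2 ≤ c.length ∧ c.Nodup ∧ (∀ a ∈ c, a < I.length) ∧
    ∀ i < c.length, Wants I M (c.getD i 0) (c.getD ((i + 1) % c.length) 0)

/-- `M` is cycle stable. -/
def CycleStable (I : Inst) (M : List ℕ) : Prop := ∀ c, ¬ BlockingCycle I M c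

/-- `M` is 3-cycle stable. -/
def ThreeCycleStable (I : Inst) (M : List ℕ) : Prop := ∀ c, BlockingCycle I M c → ¬ c.length ≤ 3

/-- The decision problem CS(L): all lists have length at most `L` and there is a cycle stable
matching. -/
def CS (L : ℕ) (I : Inst) : Prop :=
  Valid I ∧ (∀ l ∈ I, l.length ≤ L) ∧ ∃ M, IsMatching I M ∧ CycleStable I M

/-- The decision problem CS₃(L): all lists have length at most `L` and there is a 3-cycle stable
matching. -/
def CS3 (L : ℕ) (I : Inst) : Prop :=
  Valid I ∧ (∀ l ∈ I, l.length ≤ L) ∧ ∃ M, IsMatching I M ∧ ThreeCycleStable I M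

end Pool.Agent.Q230.CY
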