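import Pool.Agent.Q230.CY.Occ
import Pool.Agent.H958R2.NLT.X13Hard
import Pool.Agent.H612.CollectPoly
import Pool.Agent.Q230.CE.Defs

/-!
# Cycle stable matchings: hardness and membership in NP
-/

set_option autoImplicit false

namespace Pool.Agent.Q230.CY

open Pool.Agent.NPC Pool.Agent.H958R2

/-! ### Positive exactly-one-in-three satisfiability is hard -/

/-- the variable of a literal -/
def lit (l : Bool × ℕ) : ℕ := if l.1 = true then 2 * l.2 + 2 else 2 * l.2 + 3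

/-- the positive formula -/
def mm (φ : List (Lit ℕ × Lit ℕ × Lit ℕ)) : List (ℕ × ℕ × ℕ) :=
  (0, 0, 1) :: φ.flatMap fun c => [(lit c.1, lit c.2.1, lit c.2.2),
    (2 * c.1.2 + 2, 2 * c.1.2 + 3, 0), (2 * c.2.1.2 + 2, 2 * c.2.1.2 + 3, 0),
    (2 * c.2.2.2 + 2, 2 * c.2.2.2 + 3, 0)]

theorem one3_iff (a b c : Bool) : one3 a b c = true ↔ One (a = true) (b = true) (c = true) := by
  unfold One
  cases a <;> cases b <;> cases c <;> simp [one3]

theorem mono_mm (φ : List (Lit ℕ × Lit ℕ × Lit ℕ)) : X13 φ ↔ Mono (mm φ) := by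
  constructor
  · rintro ⟨τ, hτ⟩
    have e1 : ∀ v : ℕ, (if (2 * v + 2) = 0 then false else if (2 * v + 2) = 1 then true else
        if (2 * v + 2) % 2 = 0 then τ ((2 * v + 2) / 2 - 1) else !τ (((2 * v + 2) - 3) / 2)) = τ v := by
      intro v
      rw [if_neg (by omega), if_neg (by omega), if_pos (by omega)]
      congr 1
      omega
    have e2 : ∀ v : ℕ, (if (2 * v + 3) = 0 then false else if (2 * v + 3) = 1 then true else
        if (2 * v + 3) % 2 = 0 then τ ((2 * v + 3) / 2 - 1) else !τ (((2 * v + 3) - 3) / 2)) = !τ v := by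
      intro v
      rw [if_neg (by omega), if_neg (by omega), if_neg (by omega)]
      congr 2
      omega
    refine ⟨fun n => if n = 0 then false else if n = 1 then true else
      if n % 2 = 0 then τ (n / 2 - 1) else !τ ((n - 3) / 2), ?_⟩
    have e3 : ∀ l : Bool × ℕ, (if lit l = 0 then false else if lit l = 1 then true else
        if lit l % 2 = 0 then τ (lit l / 2 - 1) else !τ ((lit l - 3) / 2)) = (τ l.2 == l.1) := by
      rintro ⟨b, v⟩
      unfold lit
      cases b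
      · simp only [Bool.false_eq_true, if_false]
        rw [e2]
        cases τ v <;> rfl
      · simp only [if_true]
        rw [e1]
        cases τ v <;> rfl
    intro c hc
    simp only [mm, List.mem_cons, List.mem_flatMap, List.not_mem_nil, or_false] at hc
    rcases hc with rfl | ⟨d, hd, rfl | rfl | rfl | rfl⟩
    · unfold One; simp
    · simp only [e3]
      exact (one3_iff _ _ _).1 (hτ d hd)
    · simp only [e1, e2]
      unfold One
      cases τ d.1.2 <;> simp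
    · simp only [e1, e2]
      unfold One
      cases τ d.2.1.2 <;> simp
    · simp only [e1, e2]
      unfold One
      cases τ d.2.2.2 <;> simp
  · rintro ⟨σ, hσ⟩
    have h0 : σ 0 = false := by
      have := hσ (0, 0, 1) (by simp [mm])
      unfold One at this
      simp only at this
      cases h : σ 0
      · rfl
      · rw [h] at this
        simp at this
    have hm : ∀ c ∈ φ, ∀ d ∈ [(lit c.1, lit c.2.1, lit c.2.2),
        (2 * c.1.2 + 2, 2 * c.1.2 + 3, 0), (2 * c.2.1.2 + 2, 2 * c.2.1.2 + 3, 0),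
        (2 * c.2.2.2 + 2, 2 * c.2.2.2 + 3, 0)], d ∈ mm φ := by
      intro c hc d hd
      exact List.mem_cons_of_mem _ (List.mem_flatMap.2 ⟨c, hc, hd⟩)
    have h2 : ∀ v : ℕ, (2 * v + 2, 2 * v + 3, 0) ∈ mm φ → σ (2 * v + 3) = !σ (2 * v + 2) := by
      intro v hv
      have := hσ _ hv
      unfold One at this
      simp only [h0] at this
      cases h3 : σ (2 * v + 3) <;> cases h4 : σ (2 * v + 2) <;> simp [h3, h4] at this ⊢
    have h3 : ∀ l : Bool × ℕ, (2 * l.2 + 2, 2 * l.2 + 3, 0) ∈ mm φ →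
        σ (lit l) = (σ (2 * l.2 + 2) == l.1) := by
      rintro ⟨b, v⟩ hl
      have := h2 v hl
      unfold lit
      cases b
      · simp only [Bool.false_eq_true, if_false]
        rw [this]
        cases σ (2 * v + 2) <;> rfl
      · simp only [if_true]
        cases σ (2 * v + 2) <;> rfl
    refine ⟨fun v => σ (2 * v + 2), ?_⟩
    intro c hc
    rw [one3_iff]
    have h4 := hσ _ (hm c hc (lit c.1, lit c.2.1, lit c.2.2) (by simp))
    rw [h3 c.1 (hm c hc _ (by simp)), h3 c.2.1 (hm c hc _ (by simp)),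
      h3 c.2.2 (hm c hc _ (by simp))] at h4
    exact h4

section poly

variable {α : Type} [TEnc α]

theorem poly_lit {l : α → Bool × ℕ} (hl : NPC.Poly l) : NPC.Poly (fun a => lit (l a)) := by
  unfold lit
  have h1 := hl.fst
  have h2 := hl.snd
  refine Poly.ite (p := fun a => (l a).1 = true) (Poly.decide_bool h1) ?_ ?_ <;> fun_prop

theorem poly_mm : NPC.Poly mm := by
  unfold mm
  refine Poly.cons (NPC.Poly.const _) (Poly.flatMap (F := fun _ (c : Lit ℕ × Lit ℕ × Lit ℕ) =>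
    [(lit c.1, lit c.2.1, lit c.2.2),
    (2 * c.1.2 + 2, 2 * c.1.2 + 3, 0), (2 * c.2.1.2 + 2, 2 * c.2.1.2 + 3, 0),
    (2 * c.2.2.2 + 2, 2 * c.2.2.2 + 3, 0)]) Poly.id ?_)
  have h : NPC.Poly (fun p : List (Lit ℕ × Lit ℕ × Lit ℕ) × (Lit ℕ × Lit ℕ × Lit ℕ) => p.2) :=
    Poly.snd Poly.id
  have h1 := poly_lit h.fst
  have h2 := poly_lit h.snd.fst
  have h3 := poly_lit h.snd.snd
  have k1 := h.fst.snd
  have k2 := h.snd.fst.snd
  have k3 := h.snd.snd.snd
  fun_prop

theorem hardI_Mono : HardI Mono := by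
  have := H958NLT.hardPr_X13.toHardI
  exact this.trans poly_mm mono_mm

/-! ### The instance in polynomial time -/

theorem poly_vr {φ : α → List (ℕ × ℕ × ℕ)} {o : α → ℕ} (hφ : NPC.Poly φ) (ho : NPC.Poly o) :
    NPC.Poly (fun a => vr (φ a) (o a)) := by
  unfold vr
  have h1 : NPC.Poly (fun a => (φ a).getD (o a / 3) (0, 0, 0)) :=
    Poly.getD hφ (Poly.div ho (NPC.Poly.const 3)) (NPC.Poly.const _)
  have h2 : NPC.Poly (fun a => o a % 3) := Poly.mod ho (NPC.Poly.const 3)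
  refine Poly.ite (p := fun a => o a % 3 = 0) (Poly.decide_eq h2 (NPC.Poly.const 0)) h1.fst ?_
  exact Poly.ite (p := fun a => o a % 3 = 1) (Poly.decide_eq h2 (NPC.Poly.const 1)) h1.snd.fst
    h1.snd.snd

theorem poly_occs {φ : α → List (ℕ × ℕ × ℕ)} {v : α → ℕ} (hφ : NPC.Poly φ) (hv : NPC.Poly v) :
    NPC.Poly (fun a => occs (3 * (φ a).length) (vr (φ a)) (v a)) := by
  unfold occs
  refine Poly.filter (p := fun a o => decide (vr (φ a) o = v a))
    (UPoly.mul (UPoly.const 3) (UPoly.length hφ)).range ?_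
  exact Poly.decide_eq (poly_vr (hφ.comp (Poly.fst Poly.id)) (Poly.snd Poly.id))
    (hv.comp (Poly.fst Poly.id))

theorem poly_nxt {φ : α → List (ℕ × ℕ × ℕ)} {o : α → ℕ} (hφ : NPC.Poly φ) (ho : NPC.Poly o) :
    NPC.Poly (fun a => nxt (3 * (φ a).length) (vr (φ a)) (o a)) := by
  have h := poly_occs hφ (poly_vr hφ ho)
  exact Poly.getD h (Poly.mod (Poly.add (H612.poly_idxOf h ho) (NPC.Poly.const 1)) (Poly.length h))
    (NPC.Poly.const 0)

theorem poly_prv {φ : α → List (ℕ × ℕ × ℕ)} {o : α → ℕ} (hφ : NPC.Poly φ) (ho : NPC.Poly o) :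
    NPC.Poly (fun a => prv (3 * (φ a).length) (vr (φ a)) (o a)) := by
  have h := poly_occs hφ (poly_vr hφ ho)
  exact Poly.getD h (Poly.mod (Poly.add (H612.poly_idxOf h ho) (Poly.sub (Poly.length h)
    (NPC.Poly.const 1))) (Poly.length h)) (NPC.Poly.const 0)

theorem poly_inst : NPC.Poly inst := by
  have hφ : NPC.Poly (fun φ : List (ℕ × ℕ × ℕ) => φ) := Poly.id
  unfold inst ins
  refine NPC.Poly.map (F := fun (φ : List (ℕ × ℕ × ℕ)) g =>
    pl (nxt (3 * φ.length) (vr φ)) (prv (3 * φ.length) (vr φ)) g)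
    (UPoly.mul (UPoly.const 12) (UPoly.length hφ)).range ?_
  have h1 : NPC.Poly (fun x : List (ℕ × ℕ × ℕ) × ℕ => x.2 % 4) :=
    Poly.mod (Poly.snd Poly.id) (NPC.Poly.const 4)
  have h2 : NPC.Poly (fun x : List (ℕ × ℕ × ℕ) × ℕ => x.2 / 4) :=
    Poly.div (Poly.snd Poly.id) (NPC.Poly.const 4)
  have hn : NPC.Poly (fun x : List (ℕ × ℕ × ℕ) × ℕ => nx (x.2 / 4)) := by
    unfold nx; fun_prop
  have hp : NPC.Poly (fun x : List (ℕ × ℕ × ℕ) × ℕ => pv (x.2 / 4)) := by
    unfold pv; fun_prop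
  have ht := poly_nxt (Poly.fst (Poly.id (α := List (ℕ × ℕ × ℕ) × ℕ))) h2
  have hr := poly_prv (Poly.fst (Poly.id (α := List (ℕ × ℕ × ℕ) × ℕ))) h2
  unfold pl
  refine Poly.ite (p := fun x : List (ℕ × ℕ × ℕ) × ℕ => x.2 % 4 = 0)
    (Poly.decide_eq h1 (NPC.Poly.const 0)) ?_ ?_
  · fun_prop
  refine Poly.ite (p := fun x : List (ℕ × ℕ × ℕ) × ℕ => x.2 % 4 = 1)
    (Poly.decide_eq h1 (NPC.Poly.const 1)) ?_ ?_
  · fun_prop
  refine Poly.ite (p := fun x : List (ℕ × ℕ × ℕ) × ℕ => x.2 % 4 = 2)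
    (Poly.decide_eq h1 (NPC.Poly.const 2)) ?_ ?_
  · fun_prop
  · fun_prop

end poly

theorem cs_correct {L : ℕ} (hL : 3 ≤ L) (φ : List (ℕ × ℕ × ℕ)) : Mono φ ↔ CS L (inst φ) := by
  have hv : Valid (inst φ) := valid_ins (cyc_occs _ _)
  have hl : ∀ l ∈ inst φ, l.length ≤ L := fun l hl => (len_ins _ _ _ l hl).trans hL
  constructor
  · intro h
    exact ⟨hv, hl, (correct φ).1 h⟩
  · rintro ⟨-, -, M, h1, h2⟩
    exact (correct φ).2 ⟨M, h1, h2.three⟩

theorem cs3_correct {L : ℕ} (hL : 3 ≤ L) (φ : List (ℕ × ℕ × ℕ)) : Mono φ ↔ CS3 L (inst φ) := by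
  have hv : Valid (inst φ) := valid_ins (cyc_occs _ _)
  have hl : ∀ l ∈ inst φ, l.length ≤ L := fun l hl => (len_ins _ _ _ l hl).trans hL
  constructor
  · intro h
    obtain ⟨M, h1, h2⟩ := (correct φ).1 h
    exact ⟨hv, hl, M, h1, h2.three⟩
  · rintro ⟨-, -, M, h1, h2⟩
    exact (correct φ).2 ⟨M, h1, h2⟩

theorem cs_hard {L : ℕ} (hL : 3 ≤ L) : NPHardP (CS L) :=
  (hardI_Mono.trans poly_inst (cs_correct hL)).toNPHardP

theorem cs3_hard {L : ℕ} (hL : 3 ≤ L) : NPHardP (CS3 L) :=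
  (hardI_Mono.trans poly_inst (cs3_correct hL)).toNPHardP

end Pool.Agent.Q230.CY
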