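import Pool.Agent.Q230.CY.Hard
import Pool.Agent.NPC.Dec

/-!
# Cycle stable matchings: membership in NP
-/

set_option autoImplicit false

namespace Pool.Agent.Q230.CY

open Pool.Agent.NPC

/-! ### Tests -/

/-- validity -/
def validB (I : Inst) : Bool :=
  (List.range I.length).all fun a => decide ((prefs I a).dedup = prefs I a) &&
    (prefs I a).all fun b => decide (b < I.length) && (!decide (b = a) && decide (a ∈ prefs I b))

theorem validB_iff (I : Inst) : validB I = true ↔ Valid I := by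
  simp only [validB, Valid, List.all_eq_true, List.mem_range, Bool.and_eq_true, decide_eq_true_eq,
    Bool.not_eq_true', decide_eq_false_iff_not, List.dedup_eq_self]

/-- bounded lists -/
def lenB (L : ℕ) (I : Inst) : Bool := I.all fun l => decide (l.length ≤ L)

theorem lenB_iff (L : ℕ) (I : Inst) : lenB L I = true ↔ ∀ l ∈ I, l.length ≤ L := by
  simp [lenB, List.all_eq_true]

/-- matching -/
def matB (I : Inst) (M : List ℕ) : Bool :=
  decide (M.length = I.length) && (List.range I.length).all fun a =>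
    decide (M.getD a 0 < I.length) && (decide (M.getD (M.getD a 0) 0 = a) &&
      (decide (M.getD a 0 = a) || decide (M.getD a 0 ∈ prefs I a)))

theorem matB_iff (I : Inst) (M : List ℕ) : matB I M = true ↔ IsMatching I M := by
  simp only [matB, IsMatching, List.all_eq_true, List.mem_range, Bool.and_eq_true,
    decide_eq_true_eq, Bool.or_eq_true]

/-- wish -/
def wB (I : Inst) (M : List ℕ) (a b : ℕ) : Bool :=
  decide (b ∈ prefs I a) && (decide (M.getD a 0 = a) ||
    decide ((prefs I a).idxOf b < (prefs I a).idxOf (M.getD a 0)))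

theorem wB_iff (I : Inst) (M : List ℕ) (a b : ℕ) : wB I M a b = true ↔ Wants I M a b := by
  simp only [wB, Wants, Bool.and_eq_true, decide_eq_true_eq, Bool.or_eq_true]

/-- ranks decrease -/
def rkB (I : Inst) (M R : List ℕ) : Bool :=
  (decide (R.length = I.length) && R.all fun k => decide (k ≤ I.length)) &&
    (List.range I.length).all fun a => (List.range I.length).all fun b =>
      !(wB I M a b) || decide (R.getD b 0 < R.getD a 0)

theorem rkB_iff (I : Inst) (M R : List ℕ) :
    rkB I M R = true ↔ Q230CE.Decr I.length (Wants I M) R := by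
  unfold rkB Q230CE.Decr
  rw [Bool.and_eq_true, Bool.and_eq_true, and_assoc]
  refine and_congr (by simp) (and_congr (by simp [List.all_eq_true]) ?_)
  simp only [List.all_eq_true, List.mem_range, Bool.or_eq_true, Bool.not_eq_true',
    decide_eq_true_eq, ← Bool.not_eq_true, wB_iff]
  constructor
  · intro h a ha b hb hab
    exact (h a ha b hb).resolve_left (fun h1 => h1 hab)
  · intro h a ha b hb
    by_cases hab : Wants I M a b
    · exact Or.inr (h a ha b hb hab)
    · exact Or.inl hab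

/-- no short cycle -/
def triB (I : Inst) (M : List ℕ) : Bool :=
  (List.range I.length).all fun a => (List.range I.length).all fun b =>
    !(wB I M a b && wB I M b a) && (List.range I.length).all fun c =>
      !(wB I M a b && (wB I M b c && wB I M c a))

theorem wants_irr {I : Inst} (hI : Valid I) (M : List ℕ) (a : ℕ) : ¬ Wants I M a a := by
  rintro ⟨h, -⟩
  by_cases ha : a < I.length
  · exact ((hI a ha).2 a h).2.1 rfl
  · unfold prefs at h
    rw [List.getD_eq_default _ _ (by omega)] at h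
    simp at h

theorem triB_iff {I : Inst} (hI : Valid I) (M : List ℕ) :
    triB I M = true ↔ ThreeCycleStable I M := by
  have irr := wants_irr hI M
  unfold triB
  simp only [List.all_eq_true, List.mem_range, Bool.and_eq_true, Bool.not_eq_true',
    ← Bool.not_eq_true, wB_iff]
  constructor
  · rintro h c ⟨hc1, hc2, hc3, hc4⟩ hc5
    have : c.length = 2 ∨ c.length = 3 := by omega
    rcases this with h2 | h2
    · obtain ⟨a, b, rfl⟩ := List.length_eq_two.1 h2
      have w1 := hc4 0 (by simp)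
      have w2 := hc4 1 (by simp)
      simp at w1 w2
      exact (h a (hc3 a (by simp)) b (hc3 b (by simp))).1 ⟨w1, w2⟩
    · obtain ⟨a, b, d, rfl⟩ := List.length_eq_three.1 h2
      have w1 := hc4 0 (by simp)
      have w2 := hc4 1 (by simp)
      have w3 := hc4 2 (by simp)
      simp at w1 w2 w3
      exact (h a (hc3 a (by simp)) b (hc3 b (by simp))).2 d (hc3 d (by simp)) ⟨w1, w2, w3⟩
  · intro h a ha b hb
    constructor
    · intro hcon
      exact no2 h ha hb (by rintro rfl; exact irr _ hcon.1) hcon.1 hcon.2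
    · intro c hc hcon
      obtain ⟨h1, h2, h3⟩ := hcon
      exact no3 h ha hb hc (by rintro rfl; exact irr _ h1) (by rintro rfl; exact irr _ h2)
        (by rintro rfl; exact irr _ h3) h1 h2 h3

/-! ### Polynomial time -/

section poly

variable {α : Type} [TEnc α]

theorem poly_prefs {I : α → Inst} {a : α → ℕ} (hI : NPC.Poly I) (ha : NPC.Poly a) :
    NPC.Poly (fun x => prefs (I x) (a x)) := Poly.getD hI ha (NPC.Poly.const _)

theorem poly_validB {I : α → Inst} (hI : NPC.Poly I) : NPC.Poly (fun x => validB (I x)) := by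
  unfold validB
  refine Poly.all (p := fun x a => decide ((prefs (I x) a).dedup = prefs (I x) a) &&
    (prefs (I x) a).all fun b => decide (b < (I x).length) && (!decide (b = a) &&
      decide (a ∈ prefs (I x) b))) (UPoly.length hI).range ?_
  have h1 := poly_prefs (hI.comp (Poly.fst (Poly.id (α := α × ℕ)))) (Poly.snd Poly.id)
  refine Poly.and (Poly.decide_eq (H612.poly_dedup h1) h1) ?_
  refine Poly.all (p := fun (x : α × ℕ) b => decide (b < (I x.1).length) && (!decide (b = x.2) &&
      decide (x.2 ∈ prefs (I x.1) b))) h1 ?_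
  have hI' : NPC.Poly (fun x : (α × ℕ) × ℕ => I x.1.1) := hI.comp (Poly.fst (Poly.fst Poly.id))
  have hb : NPC.Poly (fun x : (α × ℕ) × ℕ => x.2) := Poly.snd Poly.id
  have ha : NPC.Poly (fun x : (α × ℕ) × ℕ => x.1.2) := Poly.snd (Poly.fst Poly.id)
  exact Poly.and (Poly.decide_lt hb (Poly.length hI')) (Poly.and (Poly.not (Poly.decide_eq hb ha))
    (Poly.decide_mem ha (poly_prefs hI' hb)))

theorem poly_lenB (L : ℕ) {I : α → Inst} (hI : NPC.Poly I) : NPC.Poly (fun x => lenB L (I x)) := by
  unfold lenB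
  exact Poly.all (p := fun _ (l : List ℕ) => decide (l.length ≤ L)) hI
    (Poly.decide_le (Poly.length (Poly.snd Poly.id)) (NPC.Poly.const L))

theorem poly_matB {I : α → Inst} {M : α → List ℕ} (hI : NPC.Poly I) (hM : NPC.Poly M) :
    NPC.Poly (fun x => matB (I x) (M x)) := by
  unfold matB
  refine Poly.and (Poly.decide_eq (Poly.length hM) (Poly.length hI)) ?_
  refine Poly.all (p := fun x a => decide ((M x).getD a 0 < (I x).length) &&
    (decide ((M x).getD ((M x).getD a 0) 0 = a) &&
      (decide ((M x).getD a 0 = a) || decide ((M x).getD a 0 ∈ prefs (I x) a))))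
    (UPoly.length hI).range ?_
  have hI' : NPC.Poly (fun x : α × ℕ => I x.1) := hI.comp (Poly.fst Poly.id)
  have hM' : NPC.Poly (fun x : α × ℕ => M x.1) := hM.comp (Poly.fst Poly.id)
  have ha : NPC.Poly (fun x : α × ℕ => x.2) := Poly.snd Poly.id
  have h1 := Poly.getD (d := fun _ => 0) hM' ha (NPC.Poly.const _)
  have h2 := Poly.getD (d := fun _ => 0) hM' h1 (NPC.Poly.const _)
  exact Poly.and (Poly.decide_lt h1 (Poly.length hI')) (Poly.and (Poly.decide_eq h2 ha)
    (Poly.or (Poly.decide_eq h1 ha) (Poly.decide_mem h1 (poly_prefs hI' ha))))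

theorem poly_wB {I : α → Inst} {M : α → List ℕ} {a b : α → ℕ} (hI : NPC.Poly I) (hM : NPC.Poly M)
    (ha : NPC.Poly a) (hb : NPC.Poly b) : NPC.Poly (fun x => wB (I x) (M x) (a x) (b x)) := by
  have h1 := Poly.getD (d := fun _ => 0) hM ha (NPC.Poly.const _)
  have h2 := poly_prefs hI ha
  exact Poly.and (Poly.decide_mem hb h2) (Poly.or (Poly.decide_eq h1 ha)
    (Poly.decide_lt (H612.poly_idxOf h2 hb) (H612.poly_idxOf h2 h1)))

theorem poly_rkB {I : α → Inst} {M R : α → List ℕ} (hI : NPC.Poly I) (hM : NPC.Poly M)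
    (hR : NPC.Poly R) : NPC.Poly (fun x => rkB (I x) (M x) (R x)) := by
  unfold rkB
  refine Poly.and (Poly.and (Poly.decide_eq (Poly.length hR) (Poly.length hI)) ?_) ?_
  · exact Poly.all (p := fun x k => decide (k ≤ (I x).length)) hR
      (Poly.decide_le (Poly.snd Poly.id) (Poly.length (hI.comp (Poly.fst Poly.id))))
  · refine Poly.all (p := fun x a => (List.range (I x).length).all fun b =>
      !(wB (I x) (M x) a b) || decide ((R x).getD b 0 < (R x).getD a 0)) (UPoly.length hI).range ?_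
    refine Poly.all (p := fun (x : α × ℕ) b =>
      !(wB (I x.1) (M x.1) x.2 b) || decide ((R x.1).getD b 0 < (R x.1).getD x.2 0))
      (UPoly.length (hI.comp (Poly.fst Poly.id))).range ?_
    have hI' : NPC.Poly (fun x : (α × ℕ) × ℕ => I x.1.1) := hI.comp (Poly.fst (Poly.fst Poly.id))
    have hM' : NPC.Poly (fun x : (α × ℕ) × ℕ => M x.1.1) := hM.comp (Poly.fst (Poly.fst Poly.id))
    have hR' : NPC.Poly (fun x : (α × ℕ) × ℕ => R x.1.1) := hR.comp (Poly.fst (Poly.fst Poly.id))
    have hb : NPC.Poly (fun x : (α × ℕ) × ℕ => x.2) := Poly.snd Poly.id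
    have ha : NPC.Poly (fun x : (α × ℕ) × ℕ => x.1.2) := Poly.snd (Poly.fst Poly.id)
    exact Poly.or (Poly.not (poly_wB hI' hM' ha hb)) (Poly.decide_lt
      (Poly.getD (d := fun _ => 0) hR' hb (NPC.Poly.const _))
      (Poly.getD (d := fun _ => 0) hR' ha (NPC.Poly.const _)))

theorem poly_triB {I : α → Inst} {M : α → List ℕ} (hI : NPC.Poly I) (hM : NPC.Poly M) :
    NPC.Poly (fun x => triB (I x) (M x)) := by
  unfold triB
  refine Poly.all (p := fun x a => (List.range (I x).length).all fun b =>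
    !(wB (I x) (M x) a b && wB (I x) (M x) b a) && (List.range (I x).length).all fun c =>
      !(wB (I x) (M x) a b && (wB (I x) (M x) b c && wB (I x) (M x) c a)))
    (UPoly.length hI).range ?_
  refine Poly.all (p := fun (x : α × ℕ) b =>
    !(wB (I x.1) (M x.1) x.2 b && wB (I x.1) (M x.1) b x.2) &&
      (List.range (I x.1).length).all fun c =>
      !(wB (I x.1) (M x.1) x.2 b && (wB (I x.1) (M x.1) b c && wB (I x.1) (M x.1) c x.2)))
    (UPoly.length (hI.comp (Poly.fst Poly.id))).range ?_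
  have hI' : NPC.Poly (fun x : (α × ℕ) × ℕ => I x.1.1) := hI.comp (Poly.fst (Poly.fst Poly.id))
  have hM' : NPC.Poly (fun x : (α × ℕ) × ℕ => M x.1.1) := hM.comp (Poly.fst (Poly.fst Poly.id))
  have hb : NPC.Poly (fun x : (α × ℕ) × ℕ => x.2) := Poly.snd Poly.id
  have ha : NPC.Poly (fun x : (α × ℕ) × ℕ => x.1.2) := Poly.snd (Poly.fst Poly.id)
  refine Poly.and (Poly.not (Poly.and (poly_wB hI' hM' ha hb) (poly_wB hI' hM' hb ha))) ?_
  refine Poly.all (p := fun (x : (α × ℕ) × ℕ) c =>
      !(wB (I x.1.1) (M x.1.1) x.1.2 x.2 && (wB (I x.1.1) (M x.1.1) x.2 c &&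
        wB (I x.1.1) (M x.1.1) c x.1.2))) (UPoly.length hI').range ?_
  have hI2 : NPC.Poly (fun x : ((α × ℕ) × ℕ) × ℕ => I x.1.1.1) := hI'.comp (Poly.fst Poly.id)
  have hM2 : NPC.Poly (fun x : ((α × ℕ) × ℕ) × ℕ => M x.1.1.1) := hM'.comp (Poly.fst Poly.id)
  have hb2 : NPC.Poly (fun x : ((α × ℕ) × ℕ) × ℕ => x.1.2) := hb.comp (Poly.fst Poly.id)
  have ha2 : NPC.Poly (fun x : ((α × ℕ) × ℕ) × ℕ => x.1.1.2) := ha.comp (Poly.fst Poly.id)
  have hc2 : NPC.Poly (fun x : ((α × ℕ) × ℕ) × ℕ => x.2) := Poly.snd Poly.id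
  exact Poly.not (Poly.and (poly_wB hI2 hM2 ha2 hb2) (Poly.and (poly_wB hI2 hM2 hb2 hc2)
    (poly_wB hI2 hM2 hc2 ha2)))

end poly

/-! ### Certificates -/

theorem sz_le_of {l : List ℕ} {n : ℕ} (h : ∀ a ∈ l, a ≤ n) (hl : l.length = n) :
    sz l ≤ n * (4 * n + 2) + 1 := by
  have h1 := sz_le_length_mul l (4 * n + 1) (by
    intro a ha
    have b1 := sz_nat_le a
    have c1 := Poly.size_le_self a
    have := h a ha
    omega)
  rw [hl] at h1
  exact h1.trans (le_of_eq (by ring))

theorem sz_matching {I : Inst} {M : List ℕ} (h : IsMatching I M) :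
    sz M ≤ sz I * (4 * sz I + 2) + 1 := by
  have h1 := sz_le_of (l := M) (n := I.length) (by
    intro a ha
    obtain ⟨i, hi, rfl⟩ := List.getElem_of_mem ha
    have := (h.2 i (by rw [← h.1]; exact hi)).1
    rw [List.getD_eq_getElem _ _ hi] at this
    omega) h.1
  have h2 : I.length ≤ sz I := (length_lt_sz I).le
  have h3 : I.length * (4 * I.length + 2) ≤ sz I * (4 * sz I + 2) := Nat.mul_le_mul h2 (by omega)
  omega

/-- the verifier for cycle stability -/
def verC (L : ℕ) (p : Inst × (List ℕ × List ℕ)) : Bool :=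
  (validB p.1 && lenB L p.1) && (matB p.1 p.2.1 && rkB p.1 p.2.1 p.2.2)

theorem cs_iff (L : ℕ) (I : Inst) : CS L I ↔ ∃ w : List ℕ × List ℕ,
    sz w ≤ (Polynomial.C 8 * Polynomial.X * Polynomial.X + Polynomial.C 4 * Polynomial.X +
      Polynomial.C 3).eval (sz I) ∧ verC L (I, w) = true := by
  unfold CS verC
  simp only [Bool.and_eq_true, validB_iff, lenB_iff, matB_iff, rkB_iff]
  constructor
  · rintro ⟨hI, hL, M, hM, hc⟩
    have hc' : ¬ ∃ c, Q230CE.Coalition I.length (Wants I M) c := by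
      rintro ⟨c, hc'⟩
      exact hc c hc'
    obtain ⟨R, hR⟩ := (Q230CE.no_coalition_iff (wants_irr hI M)).1 hc'
    refine ⟨(M, R), ?_, ⟨hI, hL⟩, hM, hR⟩
    have e1 : sz (M, R) = sz M + sz R + 1 := sz_pair M R
    have h1 := sz_matching hM
    have h2 := sz_le_of hR.2.1 hR.1
    have h3 : I.length ≤ sz I := (length_lt_sz I).le
    have h4 : I.length * (4 * I.length + 2) ≤ sz I * (4 * sz I + 2) := Nat.mul_le_mul h3 (by omega)
    rw [e1]
    simp only [Polynomial.eval_add, Polynomial.eval_mul, Polynomial.eval_C, Polynomial.eval_X]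
    generalize sz I = s at *
    have h8 : s * (4 * s + 2) = 4 * (s * s) + 2 * s := by ring
    have h9 : 8 * s * s = 8 * (s * s) := by ring
    omega
  · rintro ⟨⟨M, R⟩, -, ⟨hI, hL⟩, hM, hR⟩
    refine ⟨hI, hL, M, hM, fun c hc => ?_⟩
    exact (Q230CE.no_coalition_iff (wants_irr hI M)).2 ⟨R, hR⟩ ⟨c, hc⟩

theorem cs_mem (L : ℕ) : InNPP (CS L) := by
  refine inNPP_of (R := verC L) ?_ _ (cs_iff L)
  have h1 : NPC.Poly (fun p : Inst × (List ℕ × List ℕ) => p.1) := Poly.fst Poly.id
  have h2 : NPC.Poly (fun p : Inst × (List ℕ × List ℕ) => p.2) := Poly.snd Poly.id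
  exact Poly.and (Poly.and (poly_validB h1) (poly_lenB L h1))
    (Poly.and (poly_matB h1 h2.fst) (poly_rkB h1 h2.fst h2.snd))

/-- the verifier for 3-cycle stability -/
def verT (L : ℕ) (p : Inst × List ℕ) : Bool :=
  (validB p.1 && lenB L p.1) && (matB p.1 p.2 && triB p.1 p.2)

theorem cs3_iff (L : ℕ) (I : Inst) : CS3 L I ↔ ∃ w : List ℕ,
    sz w ≤ (Polynomial.C 4 * Polynomial.X * Polynomial.X + Polynomial.C 2 * Polynomial.X +
      Polynomial.C 1).eval (sz I) ∧ verT L (I, w) = true := by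
  unfold CS3 verT
  simp only [Bool.and_eq_true, validB_iff, lenB_iff, matB_iff]
  constructor
  · rintro ⟨hI, hL, M, hM, hc⟩
    refine ⟨M, ?_, ⟨hI, hL⟩, hM, (triB_iff hI M).2 hc⟩
    have h1 := sz_matching hM
    simp only [Polynomial.eval_add, Polynomial.eval_mul, Polynomial.eval_C, Polynomial.eval_X]
    generalize sz I = s at *
    have h8 : s * (4 * s + 2) = 4 * (s * s) + 2 * s := by ring
    have h9 : 4 * s * s = 4 * (s * s) := by ring
    omega
  · rintro ⟨M, -, ⟨hI, hL⟩, hM, hc⟩
    exact ⟨hI, hL, M, hM, (triB_iff hI M).1 hc⟩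

theorem cs3_mem (L : ℕ) : InNPP (CS3 L) := by
  refine inNPP_of (R := verT L) ?_ _ (cs3_iff L)
  have h1 : NPC.Poly (fun p : Inst × List ℕ => p.1) := Poly.fst Poly.id
  have h2 : NPC.Poly (fun p : Inst × List ℕ => p.2) := Poly.snd Poly.id
  exact Poly.and (Poly.and (poly_validB h1) (poly_lenB L h1))
    (Poly.and (poly_matB h1 h2) (poly_triB h1 h2))

end Pool.Agent.Q230.CY
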