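import Pool.Agent.Q230.CY.Defs

/-!
# From exactly-one-in-three constraints to cycle stable matchings
-/

set_option autoImplicit false

namespace Pool.Agent.Q230.CY

theorem CycleStable.three {I : Inst} {M : List ℕ} (h : CycleStable I M) : ThreeCycleStable I M :=
  fun c hc => absurd hc (h c)

theorem no2 {I : Inst} {M : List ℕ} (h : ThreeCycleStable I M) {a b : ℕ} (ha : a < I.length)
    (hb : b < I.length) (hab : a ≠ b) (h1 : Wants I M a b) (h2 : Wants I M b a) : False := by
  refine h [a, b] ⟨by simp, by simp [hab], ?_, ?_⟩ (by simp)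
  · intro x hx
    simp at hx
    rcases hx with rfl | rfl <;> assumption
  · intro i hi
    simp at hi
    have : i = 0 ∨ i = 1 := by omega
    rcases this with rfl | rfl
    · simpa using h1
    · simpa using h2

theorem no3 {I : Inst} {M : List ℕ} (h : ThreeCycleStable I M) {a b c : ℕ} (ha : a < I.length)
    (hb : b < I.length) (hc : c < I.length) (hab : a ≠ b) (hbc : b ≠ c) (hac : a ≠ c)
    (h1 : Wants I M a b) (h2 : Wants I M b c) (h3 : Wants I M c a) : False := by
  refine h [a, b, c] ⟨by simp, by simp [hab, hbc, hac], ?_, ?_⟩ (by simp)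
  · intro x hx
    simp at hx
    rcases hx with rfl | rfl | rfl <;> assumption
  · intro i hi
    simp at hi
    have : i = 0 ∨ i = 1 ∨ i = 2 := by omega
    rcases this with rfl | rfl | rfl
    · simpa using h1
    · simpa using h2
    · simpa using h3

/-- no blocking cycle if a rank decreases along wishes -/
theorem cycleStable_of_rank {I : Inst} {M : List ℕ} (R : ℕ → ℕ)
    (h : ∀ a < I.length, ∀ b < I.length, Wants I M a b → R b < R a) : CycleStable I M := by
  rintro c ⟨hc1, _, hc3, hc4⟩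
  have hne : (Finset.range c.length).Nonempty := Finset.nonempty_range_iff.2 (by omega)
  obtain ⟨i, hi, hmin⟩ := Finset.exists_min_image (Finset.range c.length)
    (fun i => R (c.getD i 0)) hne
  rw [Finset.mem_range] at hi
  have hlt : ∀ j, j < c.length → c.getD j 0 < I.length := by
    intro j hj
    apply hc3
    rw [List.getD_eq_getElem _ _ hj]
    exact List.getElem_mem _
  have hj : (i + 1) % c.length < c.length := Nat.mod_lt _ (by omega)
  have h1 := h _ (hlt i hi) _ (hlt _ hj) (hc4 i hi)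
  have h2 := hmin _ (Finset.mem_range.2 hj)
  omega

theorem wants_top {I : Inst} {M : List ℕ} {a u : ℕ} {t : List ℕ} (hl : prefs I a = u :: t)
    (hm : M.getD a 0 = a ∨ M.getD a 0 ∈ prefs I a) (h : M.getD a 0 ≠ u) : Wants I M a u := by
  refine ⟨by rw [hl]; simp, ?_⟩
  rcases hm with hm | hm
  · exact Or.inl hm
  · right
    rw [hl, List.idxOf_cons_self, List.idxOf_cons_ne _ h.symm]
    omega

theorem wants_snd {I : Inst} {M : List ℕ} {a u v : ℕ} {t : List ℕ} (hl : prefs I a = u :: v :: t)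
    (hm : M.getD a 0 = a ∨ M.getD a 0 ∈ prefs I a) (h1 : M.getD a 0 ≠ u) (h2 : M.getD a 0 ≠ v)
    (huv : u ≠ v) : Wants I M a v := by
  refine ⟨by rw [hl]; simp, ?_⟩
  rcases hm with hm | hm
  · exact Or.inl hm
  · right
    rw [hl, List.idxOf_cons_ne _ huv, List.idxOf_cons_self, List.idxOf_cons_ne _ h1.symm,
      List.idxOf_cons_ne _ h2.symm]
    omega

/-! ### The instance -/

/-- the next occurrence in the clause -/
def nx (o : ℕ) : ℕ := 3 * (o / 3) + (o % 3 + 1) % 3

/-- the previous occurrence in the clause -/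
def pv (o : ℕ) : ℕ := 3 * (o / 3) + (o % 3 + 2) % 3

/-- the list of an agent -/
def pl (nxt prv : ℕ → ℕ) (g : ℕ) : List ℕ :=
  if g % 4 = 0 then [4 * nx (g / 4), 4 * (g / 4) + 1, 4 * pv (g / 4)]
  else if g % 4 = 1 then [4 * pv (g / 4) + 2, 4 * (g / 4), 4 * (g / 4) + 3]
  else if g % 4 = 2 then [4 * nxt (g / 4) + 3, 4 * nx (g / 4) + 1]
  else [4 * (g / 4) + 1, 4 * prv (g / 4) + 2]

/-- the instance -/
def ins (C : ℕ) (nxt prv : ℕ → ℕ) : Inst := (List.range (12 * C)).map (pl nxt prv)

theorem length_ins (C : ℕ) (nxt prv : ℕ → ℕ) : (ins C nxt prv).length = 12 * C := by simp [ins]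

theorem prefs_ins {C : ℕ} {nxt prv : ℕ → ℕ} {a : ℕ} (ha : a < 12 * C) :
    prefs (ins C nxt prv) a = pl nxt prv a := by
  unfold prefs ins
  rw [List.getD_eq_getElem _ _ (by simpa using ha)]
  simp

theorem pl0 (nxt prv : ℕ → ℕ) (o : ℕ) : pl nxt prv (4 * o) = [4 * nx o, 4 * o + 1, 4 * pv o] := by
  unfold pl
  rw [if_pos (by omega), show 4 * o / 4 = o by omega]

theorem pl1 (nxt prv : ℕ → ℕ) (o : ℕ) :
    pl nxt prv (4 * o + 1) = [4 * pv o + 2, 4 * o, 4 * o + 3] := by
  unfold pl
  rw [if_neg (by omega), if_pos (by omega), show (4 * o + 1) / 4 = o by omega]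

theorem pl2 (nxt prv : ℕ → ℕ) (o : ℕ) :
    pl nxt prv (4 * o + 2) = [4 * nxt o + 3, 4 * nx o + 1] := by
  unfold pl
  rw [if_neg (by omega), if_neg (by omega), if_pos (by omega), show (4 * o + 2) / 4 = o by omega]

theorem pl3 (nxt prv : ℕ → ℕ) (o : ℕ) :
    pl nxt prv (4 * o + 3) = [4 * o + 1, 4 * prv o + 2] := by
  unfold pl
  rw [if_neg (by omega), if_neg (by omega), if_neg (by omega), show (4 * o + 3) / 4 = o by omega]

theorem nx_pv (o : ℕ) : nx (pv o) = o := by unfold nx pv; omega

theorem pv_nx (o : ℕ) : pv (nx o) = o := by unfold nx pv; omega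

theorem nx_nx (o : ℕ) : nx (nx o) = pv o := by unfold nx pv; omega

theorem pv_pv (o : ℕ) : pv (pv o) = nx o := by unfold nx pv; omega

theorem nx_ne (o : ℕ) : nx o ≠ o := by unfold nx; omega

theorem pv_ne (o : ℕ) : pv o ≠ o := by unfold pv; omega

theorem nx_ne_pv (o : ℕ) : nx o ≠ pv o := by unfold nx pv; omega

theorem nx_lt {C o : ℕ} (h : o < 3 * C) : nx o < 3 * C := by unfold nx; omega

theorem pv_lt {C o : ℕ} (h : o < 3 * C) : pv o < 3 * C := by unfold pv; omega

/-- the cyclic order of the occurrences of the variables -/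
structure Cyc (n : ℕ) (var nxt prv : ℕ → ℕ) : Prop where
  nxt_lt : ∀ o < n, nxt o < n
  prv_lt : ∀ o < n, prv o < n
  prv_nxt : ∀ o < n, prv (nxt o) = o
  nxt_prv : ∀ o < n, nxt (prv o) = o
  var_nxt : ∀ o < n, var (nxt o) = var o
  conn : ∀ Q : ℕ → Prop, (∀ o < n, (Q o ↔ Q (nxt o))) → ∀ o < n, ∀ o' < n, var o = var o' →
    (Q o ↔ Q o')

theorem length_pl (nxt prv : ℕ → ℕ) (g : ℕ) : (pl nxt prv g).length ≤ 3 := by
  unfold pl
  split_ifs <;> simp

theorem len_ins (C : ℕ) (nxt prv : ℕ → ℕ) : ∀ l ∈ ins C nxt prv, l.length ≤ 3 := by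
  intro l hl
  simp only [ins, List.mem_map] at hl
  obtain ⟨g, -, rfl⟩ := hl
  exact length_pl nxt prv g

theorem cases4 (a : ℕ) : ∃ o, a = 4 * o ∨ a = 4 * o + 1 ∨ a = 4 * o + 2 ∨ a = 4 * o + 3 :=
  ⟨a / 4, by omega⟩

theorem valid_ins {C : ℕ} {var nxt prv : ℕ → ℕ} (H : Cyc (3 * C) var nxt prv) :
    Valid (ins C nxt prv) := by
  intro a ha
  rw [length_ins] at ha ⊢
  rw [prefs_ins ha]
  obtain ⟨o, h⟩ := cases4 a
  rcases h with rfl | rfl | rfl | rfl
  · have ho : o < 3 * C := by omega
    have e1 := nx_lt ho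
    have e2 := pv_lt ho
    have e3 := nx_ne o
    have e4 := pv_ne o
    have e5 := nx_ne_pv o
    rw [pl0]
    refine ⟨by simp; omega, ?_⟩
    intro b hb
    simp only [List.mem_cons, List.not_mem_nil, or_false] at hb
    rcases hb with rfl | rfl | rfl
    · exact ⟨by omega, by omega, by rw [prefs_ins (by omega), pl0, pv_nx]; simp⟩
    · exact ⟨by omega, by omega, by rw [prefs_ins (by omega), pl1]; simp⟩
    · exact ⟨by omega, by omega, by rw [prefs_ins (by omega), pl0, nx_pv]; simp⟩
  · have ho : o < 3 * C := by omega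
    have e2 := pv_lt ho
    rw [pl1]
    refine ⟨by simp; omega, ?_⟩
    intro b hb
    simp only [List.mem_cons, List.not_mem_nil, or_false] at hb
    rcases hb with rfl | rfl | rfl
    · exact ⟨by omega, by omega, by rw [prefs_ins (by omega), pl2, nx_pv]; simp⟩
    · exact ⟨by omega, by omega, by rw [prefs_ins (by omega), pl0]; simp⟩
    · exact ⟨by omega, by omega, by rw [prefs_ins (by omega), pl3]; simp⟩
  · have ho : o < 3 * C := by omega
    have e1 := nx_lt ho
    have e2 := H.nxt_lt o ho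
    rw [pl2]
    refine ⟨by simp; omega, ?_⟩
    intro b hb
    simp only [List.mem_cons, List.not_mem_nil, or_false] at hb
    rcases hb with rfl | rfl
    · exact ⟨by omega, by omega, by rw [prefs_ins (by omega), pl3, H.prv_nxt o ho]; simp⟩
    · exact ⟨by omega, by omega, by rw [prefs_ins (by omega), pl1, pv_nx]; simp⟩
  · have ho : o < 3 * C := by omega
    have e2 := H.prv_lt o ho
    rw [pl3]
    refine ⟨by simp; omega, ?_⟩
    intro b hb
    simp only [List.mem_cons, List.not_mem_nil, or_false] at hb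
    rcases hb with rfl | rfl
    · exact ⟨by omega, by omega, by rw [prefs_ins (by omega), pl1]; simp⟩
    · exact ⟨by omega, by omega, by rw [prefs_ins (by omega), pl2, H.nxt_prv o ho]; simp⟩

/-! ### Soundness -/

section sound

variable {C : ℕ} {var nxt prv : ℕ → ℕ} {M : List ℕ}

/-- a solution -/
structure Sol (C : ℕ) (var nxt prv : ℕ → ℕ) (M : List ℕ) : Prop where
  cyc : Cyc (3 * C) var nxt prv
  mat : IsMatching (ins C nxt prv) M
  stab : ThreeCycleStable (ins C nxt prv) M

theorem Sol.lt (S : Sol C var nxt prv M) {a : ℕ} (ha : a < 12 * C) : M.getD a 0 < 12 * C := by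
  have := (S.mat.2 a (by rwa [length_ins])).1
  rwa [length_ins] at this

theorem Sol.inv (S : Sol C var nxt prv M) {a : ℕ} (ha : a < 12 * C) :
    M.getD (M.getD a 0) 0 = a := (S.mat.2 a (by rwa [length_ins])).2.1

theorem Sol.mem (S : Sol C var nxt prv M) {a : ℕ} (ha : a < 12 * C) :
    M.getD a 0 = a ∨ M.getD a 0 ∈ prefs (ins C nxt prv) a := (S.mat.2 a (by rwa [length_ins])).2.2

theorem Sol.sym (S : Sol C var nxt prv M) {a b : ℕ} (ha : a < 12 * C) (h : M.getD a 0 = b) :
    M.getD b 0 = a := by rw [← h]; exact S.inv ha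

theorem Sol.no2 (S : Sol C var nxt prv M) {a b : ℕ} (ha : a < 12 * C) (hb : b < 12 * C)
    (hab : a ≠ b) (h1 : Wants (ins C nxt prv) M a b) (h2 : Wants (ins C nxt prv) M b a) : False :=
  CY.no2 S.stab (by rwa [length_ins]) (by rwa [length_ins]) hab h1 h2

theorem Sol.s_cases (S : Sol C var nxt prv M) {o : ℕ} (ho : o < 3 * C) :
    M.getD (4 * o + 2) 0 = 4 * nxt o + 3 ∨ M.getD (4 * o + 2) 0 = 4 * nx o + 1 := by
  have e1 := nx_lt ho
  rcases S.mem (a := 4 * o + 2) (by omega) with h | h
  · exfalso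
    refine S.no2 (a := 4 * o + 2) (b := 4 * nx o + 1) (by omega) (by omega) (by omega)
      ⟨by rw [prefs_ins (by omega), pl2]; simp, Or.inl h⟩ ?_
    refine wants_top (t := [4 * nx o, 4 * nx o + 3]) (by rw [prefs_ins (by omega), pl1, pv_nx])
      (S.mem (by omega)) ?_
    intro h1
    have := S.sym (by omega) h1
    omega
  · rw [prefs_ins (by omega), pl2] at h
    simpa using h

theorem Sol.t_of_s (S : Sol C var nxt prv M) {o : ℕ} (ho : o < 3 * C) :
    M.getD (4 * o + 2) 0 = 4 * nx o + 1 ↔ M.getD (4 * nxt o + 3) 0 = 4 * nxt o + 1 := by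
  have e1 := nx_lt ho
  have e2 := S.cyc.nxt_lt o ho
  constructor
  · intro h
    by_contra h1
    refine S.no2 (a := 4 * o + 2) (b := 4 * nxt o + 3) (by omega) (by omega) (by omega) ?_ ?_
    · exact wants_top (by rw [prefs_ins (by omega), pl2]) (S.mem (by omega)) (by rw [h]; omega)
    · refine wants_snd (by rw [prefs_ins (by omega), pl3, S.cyc.prv_nxt o ho]) (S.mem (by omega)) h1
        ?_ (by omega)
      intro h2
      have := S.sym (by omega) h2
      omega
  · intro h
    rcases S.s_cases ho with h1 | h1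
    · have := S.sym (by omega) h1
      omega
    · exact h1

theorem Sol.p_cases (S : Sol C var nxt prv M) {o : ℕ} (ho : o < 3 * C) :
    M.getD (4 * o + 1) 0 = 4 * pv o + 2 ∨ M.getD (4 * o + 1) 0 = 4 * o ∨
      M.getD (4 * o + 1) 0 = 4 * o + 3 := by
  rcases S.mem (a := 4 * o + 1) (by omega) with h | h
  · exfalso
    refine S.no2 (a := 4 * o + 1) (b := 4 * o + 3) (by omega) (by omega) (by omega)
      ⟨by rw [prefs_ins (by omega), pl1]; simp, Or.inl h⟩ ?_
    refine wants_top (t := [4 * prv o + 2]) (by rw [prefs_ins (by omega), pl3])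
      (S.mem (by omega)) ?_
    intro h1
    have := S.sym (by omega) h1
    omega
  · rw [prefs_ins (by omega), pl1] at h
    simpa using h

theorem Sol.x_cases (S : Sol C var nxt prv M) {o : ℕ} (ho : o < 3 * C) :
    M.getD (4 * o) 0 = 4 * nx o ∨ M.getD (4 * o) 0 = 4 * o + 1 ∨
      M.getD (4 * o) 0 = 4 * pv o := by
  have e2 := pv_lt ho
  have e4 := pv_ne o
  rcases S.mem (a := 4 * o) (by omega) with h | h
  · exfalso
    refine S.no2 (a := 4 * o) (b := 4 * pv o) (by omega) (by omega) (by omega)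
      ⟨by rw [prefs_ins (by omega), pl0]; simp, Or.inl h⟩ ?_
    refine wants_top (t := [4 * pv o + 1, 4 * pv (pv o)])
      (by rw [prefs_ins (by omega), pl0, nx_pv]) (S.mem (by omega)) ?_
    intro h1
    have := S.sym (by omega) h1
    omega
  · rw [prefs_ins (by omega), pl0] at h
    simpa using h

/-- the two kinds of ends of the wires -/
def sg (M : List ℕ) (o : ℕ) : Prop := M.getD (4 * o + 2) 0 = 4 * nx o + 1

/-- the other end -/
def tg (M : List ℕ) (o : ℕ) : Prop := M.getD (4 * o + 3) 0 = 4 * o + 1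

theorem Sol.local (S : Sol C var nxt prv M) {o : ℕ} (ho : o < 3 * C)
    (h : M.getD (4 * o) 0 = 4 * nx o) : sg M o ∧ ¬ sg M (nx o) ∧ ¬ tg M (nx o) ∧ ¬ tg M (pv o) ∧
      ((sg M (pv o) ∧ ¬ tg M o) ∨ (¬ sg M (pv o) ∧ tg M o)) := by
  have e1 := nx_lt ho
  have e2 := pv_lt ho
  have e3 := nx_ne o
  have e4 := pv_ne o
  have e5 := nx_ne_pv o
  have h' := S.sym (by omega) h
  have hpx : M.getD (4 * pv o) 0 = 4 * pv o + 1 := by
    rcases S.x_cases e2 with h1 | h1 | h1
    · rw [nx_pv] at h1
      have := S.sym (by omega) h1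
      omega
    · exact h1
    · rw [pv_pv] at h1
      have := S.sym (by omega) h1
      omega
  have hp1 := S.sym (by omega) hpx
  have hpn : M.getD (4 * nx o + 1) 0 = 4 * o + 2 := by
    by_contra h1
    refine S.no2 (a := 4 * nx o) (b := 4 * nx o + 1) (by omega) (by omega) (by omega) ?_ ?_
    · refine wants_snd (t := [4 * pv (nx o)]) (by rw [prefs_ins (by omega), pl0]) (S.mem (by omega)) ?_
        ?_ ?_
      · rw [h', nx_nx]; omega
      · omega
      · rw [nx_nx]; omega
    · refine wants_snd (t := [4 * nx o + 3]) (by rw [prefs_ins (by omega), pl1, pv_nx])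
        (S.mem (by omega)) h1 ?_ (by omega)
      intro h2
      have := S.sym (by omega) h2
      omega
  have hs := S.sym (by omega) hpn
  refine ⟨hs, ?_, ?_, ?_, ?_⟩
  · intro h1
    unfold sg at h1
    rw [nx_nx] at h1
    have := S.sym (by omega) h1
    omega
  · intro h1
    unfold tg at h1
    have := S.sym (by omega) h1
    omega
  · intro h1
    unfold tg at h1
    have := S.sym (by omega) h1
    omega
  · rcases S.p_cases ho with h1 | h1 | h1
    · left
      have h2 := S.sym (by omega) h1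
      refine ⟨by unfold sg; rw [nx_pv]; exact h2, ?_⟩
      intro h3
      unfold tg at h3
      have := S.sym (by omega) h3
      omega
    · have := S.sym (by omega) h1
      omega
    · right
      have h2 := S.sym (by omega) h1
      refine ⟨?_, h2⟩
      intro h3
      unfold sg at h3
      rw [nx_pv] at h3
      have := S.sym (by omega) h3
      omega

theorem Sol.exists_next (S : Sol C var nxt prv M) {o : ℕ} (ho : o < 3 * C) :
    M.getD (4 * o) 0 = 4 * nx o ∨ M.getD (4 * nx o) 0 = 4 * pv o ∨ M.getD (4 * pv o) 0 = 4 * o := by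
  have e1 := nx_lt ho
  have e2 := pv_lt ho
  have e3 := nx_ne o
  have e4 := pv_ne o
  have e5 := nx_ne_pv o
  by_contra hcon
  rw [not_or, not_or] at hcon
  obtain ⟨h1, h2, h3⟩ := hcon
  have w : ∀ o' < 3 * C, M.getD (4 * o') 0 ≠ 4 * nx o' → Wants (ins C nxt prv) M (4 * o') (4 * nx o') :=
    fun o' ho' h => wants_top (by rw [prefs_ins (by omega), pl0]) (S.mem (by omega)) h
  refine CY.no3 S.stab (a := 4 * o) (b := 4 * nx o) (c := 4 * pv o) (by rw [length_ins]; omega)
    (by rw [length_ins]; omega) (by rw [length_ins]; omega) (by omega) (by omega) (by omega)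
    (w o ho h1) ?_ ?_
  · have := w (nx o) e1 (by rw [nx_nx]; exact h2)
    rwa [nx_nx] at this
  · have := w (pv o) e2 (by rw [nx_pv]; exact h3)
    rwa [nx_pv] at this

end sound

end Pool.Agent.Q230.CY
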