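import Pool.Agent.Q230.CY.Red

/-!
# From 3-cycle stable matchings to solutions
-/

set_option autoImplicit false

namespace Pool.Agent.Q230.CY

open Classical in
/-- indicator -/
noncomputable def ind (p : Prop) : ℕ := if p then 1 else 0

theorem ind_pos {p : Prop} (h : p) : ind p = 1 := if_pos h

theorem ind_neg {p : Prop} (h : ¬ p) : ind p = 0 := if_neg h

theorem ind_congr {p q : Prop} (h : p ↔ q) : ind p = ind q := by rw [propext h]

/-- exactly one of three -/
def One (p q r : Prop) : Prop := (p ∧ ¬ q ∧ ¬ r) ∨ (¬ p ∧ q ∧ ¬ r) ∨ (¬ p ∧ ¬ q ∧ r)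

section

variable {C : ℕ} {var nxt prv : ℕ → ℕ} {M : List ℕ}

theorem Sol.clause (S : Sol C var nxt prv M) {i : ℕ} (hi : i < C) :
    ind (tg M (3 * i)) + ind (tg M (3 * i + 1)) + ind (tg M (3 * i + 2)) ≤
      ind (sg M (3 * i)) + ind (sg M (3 * i + 1)) + ind (sg M (3 * i + 2)) ∧
    (ind (tg M (3 * i)) + ind (tg M (3 * i + 1)) + ind (tg M (3 * i + 2)) =
      ind (sg M (3 * i)) + ind (sg M (3 * i + 1)) + ind (sg M (3 * i + 2)) →
      One (sg M (3 * i)) (sg M (3 * i + 1)) (sg M (3 * i + 2)) ∧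
      (sg M (3 * i) ↔ tg M (3 * i)) ∧ (sg M (3 * i + 1) ↔ tg M (3 * i + 1)) ∧
        (sg M (3 * i + 2) ↔ tg M (3 * i + 2))) := by
  have n0 : nx (3 * i) = 3 * i + 1 := by unfold nx; omega
  have n1 : nx (3 * i + 1) = 3 * i + 2 := by unfold nx; omega
  have n2 : nx (3 * i + 2) = 3 * i := by unfold nx; omega
  have p0 : pv (3 * i) = 3 * i + 2 := by unfold pv; omega
  have p1 : pv (3 * i + 1) = 3 * i := by unfold pv; omega
  have p2 : pv (3 * i + 2) = 3 * i + 1 := by unfold pv; omega
  have h := S.exists_next (o := 3 * i) (by omega)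
  rw [n0, p0] at h
  unfold One
  rcases h with h | h | h
  · have h1 := S.local (o := 3 * i) (by omega) (by rw [n0]; exact h)
    rw [n0, p0] at h1
    obtain ⟨a1, a2, a3, a4, a5⟩ := h1
    rcases a5 with ⟨a5, a6⟩ | ⟨a5, a6⟩
    · rw [ind_pos a1, ind_neg a2, ind_neg a3, ind_neg a4, ind_pos a5, ind_neg a6]
      refine ⟨by omega, fun h => by omega⟩
    · rw [ind_pos a1, ind_neg a2, ind_neg a3, ind_neg a4, ind_neg a5, ind_pos a6]
      refine ⟨by omega, fun _ => by tauto⟩
  · have h1 := S.local (o := 3 * i + 1) (by omega) (by rw [n1]; exact h)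
    rw [n1, p1] at h1
    obtain ⟨a1, a2, a3, a4, a5⟩ := h1
    rcases a5 with ⟨a5, a6⟩ | ⟨a5, a6⟩
    · rw [ind_pos a1, ind_neg a2, ind_neg a3, ind_neg a4, ind_pos a5, ind_neg a6]
      refine ⟨by omega, fun h => by omega⟩
    · rw [ind_pos a1, ind_neg a2, ind_neg a3, ind_neg a4, ind_neg a5, ind_pos a6]
      refine ⟨by omega, fun _ => by tauto⟩
  · have h1 := S.local (o := 3 * i + 2) (by omega) (by rw [n2]; exact h)
    rw [n2, p2] at h1
    obtain ⟨a1, a2, a3, a4, a5⟩ := h1
    rcases a5 with ⟨a5, a6⟩ | ⟨a5, a6⟩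
    · rw [ind_pos a1, ind_neg a2, ind_neg a3, ind_neg a4, ind_pos a5, ind_neg a6]
      refine ⟨by omega, fun h => by omega⟩
    · rw [ind_pos a1, ind_neg a2, ind_neg a3, ind_neg a4, ind_neg a5, ind_pos a6]
      refine ⟨by omega, fun _ => by tauto⟩

theorem sum_three (f : ℕ → ℕ) (C : ℕ) : ∑ o ∈ Finset.range (3 * C), f o =
    ∑ i ∈ Finset.range C, (f (3 * i) + f (3 * i + 1) + f (3 * i + 2)) := by
  induction C with
  | zero => simp
  | succ C ih =>
    rw [Finset.sum_range_succ, ← ih, show 3 * (C + 1) = 3 * C + 1 + 1 + 1 by ring,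
      Finset.sum_range_succ, Finset.sum_range_succ, Finset.sum_range_succ]
    ring

theorem Sol.sum_eq (S : Sol C var nxt prv M) : ∑ o ∈ Finset.range (3 * C), ind (tg M o) =
    ∑ o ∈ Finset.range (3 * C), ind (sg M o) := by
  symm
  refine Finset.sum_bij' (fun o _ => nxt o) (fun o _ => prv o) ?_ ?_ ?_ ?_ ?_
  · intro o ho
    rw [Finset.mem_range] at ho ⊢
    exact S.cyc.nxt_lt o ho
  · intro o ho
    rw [Finset.mem_range] at ho ⊢
    exact S.cyc.prv_lt o ho
  · intro o ho
    exact S.cyc.prv_nxt o (Finset.mem_range.1 ho)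
  · intro o ho
    exact S.cyc.nxt_prv o (Finset.mem_range.1 ho)
  · intro o ho
    exact ind_congr (S.t_of_s (Finset.mem_range.1 ho))

theorem Sol.final (S : Sol C var nxt prv M) {i : ℕ} (hi : i < C) :
    One (sg M (3 * i)) (sg M (3 * i + 1)) (sg M (3 * i + 2)) ∧
      (sg M (3 * i) ↔ tg M (3 * i)) ∧ (sg M (3 * i + 1) ↔ tg M (3 * i + 1)) ∧
        (sg M (3 * i + 2) ↔ tg M (3 * i + 2)) := by
  refine (S.clause hi).2 ?_
  have h := S.sum_eq
  rw [sum_three, sum_three] at h
  exact (Finset.sum_eq_sum_iff_of_le (fun j hj => (S.clause (Finset.mem_range.1 hj)).1)).1 h i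
    (Finset.mem_range.2 hi)

theorem Sol.s_iff_t (S : Sol C var nxt prv M) {o : ℕ} (ho : o < 3 * C) : sg M o ↔ tg M o := by
  obtain ⟨-, h0, h1, h2⟩ := S.final (i := o / 3) (by omega)
  have : o = 3 * (o / 3) ∨ o = 3 * (o / 3) + 1 ∨ o = 3 * (o / 3) + 2 := by omega
  rcases this with h | h | h
  · rw [h]; exact h0
  · rw [h]; exact h1
  · rw [h]; exact h2

/-- The truth assignment. -/
theorem Sol.assign (S : Sol C var nxt prv M) : ∃ τ : ℕ → Prop, ∀ i < C,
    One (τ (var (3 * i))) (τ (var (3 * i + 1))) (τ (var (3 * i + 2))) := by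
  have hc : ∀ o < 3 * C, ∀ o' < 3 * C, var o = var o' → (sg M o ↔ sg M o') :=
    S.cyc.conn (sg M) fun o ho => (S.t_of_s ho).trans (S.s_iff_t (S.cyc.nxt_lt o ho)).symm
  have he : ∀ o < 3 * C, ((∃ o' < 3 * C, var o' = var o ∧ sg M o') ↔ sg M o) := by
    intro o ho
    constructor
    · rintro ⟨o', ho', h1, h2⟩
      exact (hc o' ho' o ho h1).1 h2
    · intro h
      exact ⟨o, ho, rfl, h⟩
  refine ⟨fun v => ∃ o' < 3 * C, var o' = v ∧ sg M o', fun i hi => ?_⟩
  have h := (S.final hi).1
  unfold One at h ⊢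
  beta_reduce
  rw [he _ (by omega), he _ (by omega), he _ (by omega)]
  exact h

end

/-! ### Completeness -/

section complete

variable {C : ℕ} {var nxt prv : ℕ → ℕ} {τ : ℕ → Bool}

/-- the partner of an agent; `s o` is the value of the variable of the occurrence `o` -/
def pt (nxt prv : ℕ → ℕ) (s : ℕ → Bool) (g : ℕ) : ℕ :=
  if g % 4 = 0 then
    (if s (g / 4) = true then 4 * nx (g / 4) else if s (pv (g / 4)) = true then 4 * pv (g / 4)
      else 4 * (g / 4) + 1)
  else if g % 4 = 1 then
    (if s (g / 4) = true then 4 * (g / 4) + 3 else if s (pv (g / 4)) = true then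
      4 * pv (g / 4) + 2 else 4 * (g / 4))
  else if g % 4 = 2 then
    (if s (g / 4) = true then 4 * nx (g / 4) + 1 else 4 * nxt (g / 4) + 3)
  else (if s (g / 4) = true then 4 * (g / 4) + 1 else 4 * prv (g / 4) + 2)

theorem pt0 (nxt prv : ℕ → ℕ) (s : ℕ → Bool) (o : ℕ) : pt nxt prv s (4 * o) =
    if s o = true then 4 * nx o else if s (pv o) = true then 4 * pv o else 4 * o + 1 := by
  unfold pt
  rw [if_pos (by omega), show 4 * o / 4 = o by omega]

theorem pt1 (nxt prv : ℕ → ℕ) (s : ℕ → Bool) (o : ℕ) : pt nxt prv s (4 * o + 1) =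
    if s o = true then 4 * o + 3 else if s (pv o) = true then 4 * pv o + 2 else 4 * o := by
  unfold pt
  rw [if_neg (by omega), if_pos (by omega), show (4 * o + 1) / 4 = o by omega]

theorem pt2 (nxt prv : ℕ → ℕ) (s : ℕ → Bool) (o : ℕ) : pt nxt prv s (4 * o + 2) =
    if s o = true then 4 * nx o + 1 else 4 * nxt o + 3 := by
  unfold pt
  rw [if_neg (by omega), if_neg (by omega), if_pos (by omega), show (4 * o + 2) / 4 = o by omega]

theorem pt3 (nxt prv : ℕ → ℕ) (s : ℕ → Bool) (o : ℕ) : pt nxt prv s (4 * o + 3) =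
    if s o = true then 4 * o + 1 else 4 * prv o + 2 := by
  unfold pt
  rw [if_neg (by omega), if_neg (by omega), if_neg (by omega), show (4 * o + 3) / 4 = o by omega]

/-- the rank of an agent -/
def rk (s : ℕ → Bool) (g : ℕ) : ℕ :=
  if g % 4 = 0 then (if s (g / 4) = true then 0 else if s (pv (g / 4)) = true then 2 else 1)
  else if g % 4 = 1 then (if s (g / 4) = true then 1 else if s (pv (g / 4)) = true then 0 else 1)
  else if g % 4 = 2 then (if s (g / 4) = true then 1 else 0)
  else (if s (g / 4) = true then 0 else 2)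

theorem rk0 (s : ℕ → Bool) (o : ℕ) : rk s (4 * o) =
    if s o = true then 0 else if s (pv o) = true then 2 else 1 := by
  unfold rk
  rw [if_pos (by omega), show 4 * o / 4 = o by omega]

theorem rk1 (s : ℕ → Bool) (o : ℕ) : rk s (4 * o + 1) =
    if s o = true then 1 else if s (pv o) = true then 0 else 1 := by
  unfold rk
  rw [if_neg (by omega), if_pos (by omega), show (4 * o + 1) / 4 = o by omega]

theorem rk2 (s : ℕ → Bool) (o : ℕ) : rk s (4 * o + 2) = if s o = true then 1 else 0 := by
  unfold rk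
  rw [if_neg (by omega), if_neg (by omega), if_pos (by omega), show (4 * o + 2) / 4 = o by omega]

theorem rk3 (s : ℕ → Bool) (o : ℕ) : rk s (4 * o + 3) = if s o = true then 0 else 2 := by
  unfold rk
  rw [if_neg (by omega), if_neg (by omega), if_neg (by omega), show (4 * o + 3) / 4 = o by omega]

theorem i0 {u : ℕ} {t : List ℕ} {b : ℕ} (h : (u :: t).idxOf b < (u :: t).idxOf u) : False := by
  simp at h

theorem i1 {u v : ℕ} {t : List ℕ} {b : ℕ} (huv : u ≠ v)
    (h : (u :: v :: t).idxOf b < (u :: v :: t).idxOf v) : b = u := by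
  by_contra hb
  rw [List.idxOf_cons_ne _ (Ne.symm hb), List.idxOf_cons_ne _ huv, List.idxOf_cons_self] at h
  omega

theorem i2 {u v w b : ℕ} (h : [u, v, w].idxOf b < [u, v, w].idxOf w) : b = u ∨ b = v := by
  by_contra hb
  rw [not_or] at hb
  rw [List.idxOf_cons_ne _ (Ne.symm hb.1), List.idxOf_cons_ne _ (Ne.symm hb.2)] at h
  have := List.idxOf_lt_length_of_mem (show w ∈ [u, v, w] by simp)
  simp at this
  omega

theorem complete (H : Cyc (3 * C) var nxt prv) {s : ℕ → Bool}
    (hs : ∀ o < 3 * C, s (nxt o) = s o)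
    (h1 : ∀ o < 3 * C, (s o = true → s (nx o) = false ∧ s (pv o) = false) ∧
      (s o = true ∨ s (nx o) = true ∨ s (pv o) = true)) :
    ∃ M, IsMatching (ins C nxt prv) M ∧ CycleStable (ins C nxt prv) M := by
  have hs' : ∀ o < 3 * C, s (prv o) = s o := by
    intro o ho
    have := hs (prv o) (H.prv_lt o ho)
    rw [H.nxt_prv o ho] at this
    exact this.symm
  have hget : ∀ a, a < 12 * C → ((List.range (12 * C)).map (pt nxt prv s)).getD a 0 =
      pt nxt prv s a := by
    intro a ha
    rw [List.getD_eq_getElem _ _ (by simpa using ha)]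
    simp
  have hfacts : ∀ a, a < 12 * C → pt nxt prv s a < 12 * C ∧
      pt nxt prv s (pt nxt prv s a) = a ∧ pt nxt prv s a ∈ pl nxt prv a := by
    intro a ha
    obtain ⟨o, h⟩ := cases4 a
    rcases h with rfl | rfl | rfl | rfl
    · have ho : o < 3 * C := by omega
      have e1 := nx_lt ho
      have e2 := pv_lt ho
      rw [pt0, pl0]
      split_ifs with h2 h3
      · have h4 := ((h1 o ho).1 h2).1
        refine ⟨by omega, ?_, by simp⟩
        rw [pt0, if_neg (by rw [h4]; simp), if_pos (by rw [pv_nx]; exact h2), pv_nx]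
      · refine ⟨by omega, ?_, by simp⟩
        rw [pt0, if_pos h3, nx_pv]
      · refine ⟨by omega, ?_, by simp⟩
        rw [pt1, if_neg h2, if_neg h3]
    · have ho : o < 3 * C := by omega
      have e1 := nx_lt ho
      have e2 := pv_lt ho
      rw [pt1, pl1]
      split_ifs with h2 h3
      · refine ⟨by omega, ?_, by simp⟩
        rw [pt3, if_pos h2]
      · refine ⟨by omega, ?_, by simp⟩
        rw [pt2, if_pos h3, nx_pv]
      · refine ⟨by omega, ?_, by simp⟩
        rw [pt0, if_neg h2, if_neg h3]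
    · have ho : o < 3 * C := by omega
      have e1 := nx_lt ho
      have e3 := H.nxt_lt o ho
      rw [pt2, pl2]
      split_ifs with h2
      · have h4 := ((h1 o ho).1 h2).1
        refine ⟨by omega, ?_, by simp⟩
        rw [pt1, if_neg (by rw [h4]; simp), if_pos (by rw [pv_nx]; exact h2), pv_nx]
      · refine ⟨by omega, ?_, by simp⟩
        rw [pt3, if_neg (by rw [hs o ho]; exact h2), H.prv_nxt o ho]
    · have ho : o < 3 * C := by omega
      have e3 := H.prv_lt o ho
      rw [pt3, pl3]
      split_ifs with h2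
      · refine ⟨by omega, ?_, by simp⟩
        rw [pt1, if_pos h2]
      · refine ⟨by omega, ?_, by simp⟩
        rw [pt2, if_neg (by rw [hs' o ho]; exact h2), H.nxt_prv o ho]
  refine ⟨(List.range (12 * C)).map (pt nxt prv s), ⟨by simp [ins], ?_⟩, ?_⟩
  · intro a ha
    rw [length_ins] at ha ⊢
    obtain ⟨f1, f2, f3⟩ := hfacts a ha
    rw [hget a ha, hget _ f1, prefs_ins ha]
    exact ⟨f1, f2, Or.inr f3⟩
  · refine cycleStable_of_rank (rk s) ?_
    intro a ha b _ hw
    rw [length_ins] at ha
    obtain ⟨hb, hw⟩ := hw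
    have hva := valid_ins H a (by rwa [length_ins])
    obtain ⟨f1, f2, f3⟩ := hfacts a ha
    rw [hget a ha, prefs_ins ha] at hw
    have hne : pt nxt prv s a ≠ a := (hva.2 _ (by rw [prefs_ins ha]; exact f3)).2.1
    replace hw := hw.resolve_left hne
    rw [prefs_ins ha] at hb hva
    obtain ⟨hnd, -⟩ := hva
    obtain ⟨o, h⟩ := cases4 a
    rcases h with rfl | rfl | rfl | rfl
    · have ho : o < 3 * C := by omega
      have e1 := nx_lt ho
      have e2 := pv_lt ho
      have e3 := nx_ne o
      have e4 := pv_ne o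
      rw [pl0] at hw
      rw [pt0] at hw
      rw [rk0]
      split_ifs at hw ⊢ with h2 h3
      · exact (i0 hw).elim
      · have h4 := h1 (pv o) e2
        rw [nx_pv, pv_pv] at h4
        rcases i2 hw with rfl | rfl
        · rw [rk0, pv_nx, if_neg h2, if_neg (by rw [(h4.1 h3).2]; simp)]
          omega
        · rw [rk1, if_neg h2, if_pos h3]
          omega
      · obtain rfl := i1 (by omega) hw
        have h4 : s (nx o) = true := ((h1 o ho).2.resolve_left h2).resolve_right h3
        rw [rk0, if_pos h4]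
        omega
    · have ho : o < 3 * C := by omega
      have e1 := nx_lt ho
      have e2 := pv_lt ho
      have e3 := nx_ne o
      have e4 := pv_ne o
      rw [pl1] at hw
      rw [pt1] at hw
      rw [rk1]
      split_ifs at hw ⊢ with h2 h3
      · have h4 := (h1 o ho).1 h2
        rcases i2 hw with rfl | rfl
        · rw [rk2, if_neg (by rw [h4.2]; simp)]
          omega
        · rw [rk0, if_pos h2]
          omega
      · exact (i0 hw).elim
      · obtain rfl := i1 (by omega) hw
        rw [rk2, if_neg h3]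
        omega
    · have ho : o < 3 * C := by omega
      have e1 := nx_lt ho
      have e3 := H.nxt_lt o ho
      rw [pl2] at hw
      rw [pt2] at hw
      rw [rk2]
      split_ifs at hw ⊢ with h2
      · obtain rfl := i1 (by omega) hw
        rw [rk3, if_pos (by rw [hs o ho]; exact h2)]
        omega
      · exact (i0 hw).elim
    · have ho : o < 3 * C := by omega
      have e3 := H.prv_lt o ho
      rw [pl3] at hw
      rw [pt3] at hw
      rw [rk3]
      split_ifs at hw ⊢ with h2
      · exact (i0 hw).elim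
      · obtain rfl := i1 (by omega) hw
        rw [rk1]
        split_ifs <;> omega

end complete

end Pool.Agent.Q230.CY
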