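import Pool.Agent.Q230.CY.Red

/-!
# Lists of length at most two
-/

set_option autoImplicit false

namespace Pool.Agent.Q230.CY

/-- first choice (or the agent itself) -/
def top (I : Inst) (a : ℕ) : ℕ := (prefs I a).headD a

/-- an odd cycle of first choices -/
def Bad (I : Inst) : Prop := ∃ a < I.length, top I a ≠ a ∧ ∃ k, k % 2 = 1 ∧ (top I)^[k] a = a

section

variable {I : Inst}

theorem top_lt (hI : Valid I) {a : ℕ} (ha : a < I.length) : top I a < I.length := by
  unfold top
  rcases h : prefs I a with _ | ⟨u, t⟩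
  · simpa using ha
  · exact ((hI a ha).2 u (by rw [h]; simp)).1

theorem iter_lt (hI : Valid I) {a : ℕ} (ha : a < I.length) (k : ℕ) : (top I)^[k] a < I.length := by
  induction k with
  | zero => exact ha
  | succ k ih => rw [Function.iterate_succ_apply']; exact top_lt hI ih

theorem prefs_of_top {a : ℕ} (h : top I a ≠ a) : ∃ t, prefs I a = top I a :: t := by
  unfold top at h ⊢
  rcases h' : prefs I a with _ | ⟨u, t⟩
  · rw [h'] at h; exact absurd rfl h
  · exact ⟨t, rfl⟩

/-- An odd cycle of first choices excludes stable matchings. -/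
theorem not_bad (hI : Valid I) (h2 : ∀ l ∈ I, l.length ≤ 2) {M : List ℕ} (hM : IsMatching I M)
    (hs : ThreeCycleStable I M) : ¬ Bad I := by
  rintro ⟨a, ha, hne, k, hk, hka⟩
  have hlt := fun i => iter_lt hI ha i
  have hlen : ∀ b, (prefs I b).length ≤ 2 := by
    intro b
    unfold prefs
    by_cases hb : b < I.length
    · rw [List.getD_eq_getElem _ _ hb]
      exact h2 _ (List.getElem_mem _)
    · rw [List.getD_eq_default _ _ (by omega)]
      simp
  have hper : ∀ i N, (top I)^[i + k * N] a = (top I)^[i] a := by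
    intro i N
    induction N with
    | zero => rfl
    | succ N ih => rw [show i + k * (N + 1) = (i + k * N) + k by ring, Function.iterate_add_apply, hka, ih]
  -- no fixed points along the cycle
  have hnf : ∀ i, top I ((top I)^[i] a) ≠ (top I)^[i] a := by
    intro i h
    have hfix : ∀ j, (top I)^[j] ((top I)^[i] a) = (top I)^[i] a := fun j => Function.iterate_fixed h j
    apply hne
    have h1 := hfix (k * i - i)
    have hk1 : 1 ≤ k := by omega
    have hki : i ≤ k * i := Nat.le_mul_of_pos_left i hk1
    rw [← Function.iterate_add_apply, Nat.sub_add_cancel hki] at h1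
    have h3 := hper 0 i
    rw [Nat.zero_add] at h3
    rw [h3] at h1
    have h4 : (top I)^[i] a = a := h1.symm
    rw [h4] at h
    exact h
  -- no 2-cycles
  have hn2 : ∀ i, top I (top I ((top I)^[i] a)) ≠ (top I)^[i] a := by
    intro i h
    have hp2 : ∀ j, (top I)^[2 * j] ((top I)^[i] a) = (top I)^[i] a := by
      intro j
      induction j with
      | zero => rfl
      | succ j ih =>
        rw [show 2 * (j + 1) = 2 * j + 2 by ring, Function.iterate_add_apply]
        rw [show (top I)^[2] ((top I)^[i] a) = top I (top I ((top I)^[i] a)) from rfl, h, ih]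
    apply hnf i
    have h1 := hper i 1
    have h2' : i + k * 1 = (2 * (k / 2) + 1) + i := by omega
    rw [h2', Function.iterate_add_apply, Function.iterate_succ_apply'] at h1
    rw [hp2] at h1
    exact h1
  have hstep : ∀ i, (M.getD ((top I)^[i] a) 0 = (top I)^[i + 1] a ↔
      ¬ M.getD ((top I)^[i + 1] a) 0 = (top I)^[i + 2] a) := by
    intro i
    obtain ⟨x, hx⟩ : ∃ x, x = (top I)^[i] a := ⟨_, rfl⟩
    have e1 : (top I)^[i + 1] a = top I x := by rw [Function.iterate_succ_apply', hx]
    have e2 : (top I)^[i + 2] a = top I (top I x) := by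
      rw [Function.iterate_succ_apply', Function.iterate_succ_apply', hx]
    rw [← hx, e1, e2]
    have hx1 : x < I.length := by rw [hx]; exact hlt i
    have hy1 : top I x < I.length := top_lt hI hx1
    have f1 : top I x ≠ x := by rw [hx]; exact hnf i
    have f2 : top I (top I x) ≠ x := by rw [hx]; exact hn2 i
    have f3 : top I (top I x) ≠ top I x := by
      have := hnf (i + 1)
      rwa [e1] at this
    constructor
    · intro h h'
      have := (hM.2 x hx1).2.1
      rw [h, h'] at this
      exact f2 this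
    · intro h'
      by_contra h
      obtain ⟨t, ht⟩ := prefs_of_top f1
      obtain ⟨t', ht'⟩ := prefs_of_top f3
      have hxm : x ∈ prefs I (top I x) := ((hI x hx1).2 (top I x) (by rw [ht]; simp)).2.2
      have ht2 : t' = [x] := by
        have hl := hlen (top I x)
        rw [ht'] at hl hxm
        simp only [List.mem_cons] at hxm
        have hxt : x ∈ t' := hxm.resolve_left (fun h => f2 h.symm)
        simp only [List.length_cons] at hl
        match t', hl, hxt with
        | [z], _, hxt => rw [List.mem_singleton.1 hxt]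
        | z :: w :: _, hl, _ => simp at hl
      rw [ht2] at ht'
      refine no2 hs hx1 hy1 f1.symm (wants_top ht (hM.2 x hx1).2.2 h) ?_
      refine wants_snd ht' (hM.2 _ hy1).2.2 h' ?_ f2
      intro h3
      apply h
      have := (hM.2 _ hy1).2.1
      rw [h3] at this
      exact this
  have halt : ∀ j, (M.getD ((top I)^[2 * j] a) 0 = (top I)^[2 * j + 1] a ↔
      M.getD ((top I)^[0] a) 0 = (top I)^[0 + 1] a) := by
    intro j
    induction j with
    | zero => exact Iff.rfl
    | succ j ih =>
      rw [← ih]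
      have s1 := hstep (2 * j)
      have s2 := hstep (2 * j + 1)
      rw [show 2 * (j + 1) = 2 * j + 1 + 1 by ring]
      tauto
  have h3 := halt (k / 2)
  have h4 := hstep (2 * (k / 2))
  have hk2 : 2 * (k / 2) + 1 = k := by omega
  rw [hk2] at h3 h4
  have h5 : (top I)^[2 * (k / 2) + 2] a = (top I)^[0 + 1] a := by
    rw [show 2 * (k / 2) + 2 = 1 + k by omega, Function.iterate_add_apply, hka]
  rw [h5] at h4
  have h6 : (top I)^[k] a = (top I)^[0] a := hka
  rw [h6] at h3 h4
  tauto

/-! ### Existence -/

/-- the wish relation for a partner function -/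
def W (I : Inst) (m : ℕ → ℕ) (a b : ℕ) : Prop :=
  b ∈ prefs I a ∧ (m a = a ∨ (prefs I a).idxOf b < (prefs I a).idxOf (m a))

/-- `m` is a stable matching of the agents in `A` -/
structure Stab (I : Inst) (A : Finset ℕ) (m : ℕ → ℕ) : Prop where
  mem : ∀ a ∈ A, m a ∈ A
  inv : ∀ a ∈ A, m (m a) = a
  acc : ∀ a ∈ A, m a = a ∨ m a ∈ prefs I a
  st : ∀ a ∈ A, ∀ b ∈ A, ¬ (W I m a b ∧ W I m b a)

/-- `b` is the first choice of `a` within `A` -/
def Top (I : Inst) (A : Finset ℕ) (a b : ℕ) : Prop :=
  b ∈ A ∧ b ∈ prefs I a ∧ ∀ c ∈ A, c ∈ prefs I a → (prefs I a).idxOf b ≤ (prefs I a).idxOf c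

theorem stab_pair {A : Finset ℕ} {a b : ℕ} (haA : a ∈ A) (hab : a ≠ b) (h1 : Top I A a b)
    (h2 : Top I A b a) {m : ℕ → ℕ} (hm : Stab I ((A.erase a).erase b) m) :
    Stab I A (fun x => if x = a then b else if x = b then a else m x) := by
  have hbA := h1.1
  have hsub : ∀ x ∈ A, x ≠ a → x ≠ b → x ∈ (A.erase a).erase b := by
    intro x hx hxa hxb
    simp [hx, hxa, hxb]
  have hsub' : ∀ x ∈ (A.erase a).erase b, x ∈ A ∧ x ≠ a ∧ x ≠ b := by
    intro x hx
    simp only [Finset.mem_erase] at hx
    exact ⟨hx.2.2, hx.2.1, hx.1⟩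
  refine ⟨?_, ?_, ?_, ?_⟩
  · intro x hx
    split_ifs with h3 h4
    · exact hbA
    · exact haA
    · exact (hsub' _ (hm.mem x (hsub x hx h3 h4))).1
  · intro x hx
    beta_reduce
    by_cases h3 : x = a
    · rw [if_pos h3, if_neg hab.symm, if_pos rfl, h3]
    · by_cases h4 : x = b
      · rw [if_neg h3, if_pos h4, if_pos rfl, h4]
      · have h5 := hsub' _ (hm.mem x (hsub x hx h3 h4))
        rw [if_neg h3, if_neg h4, if_neg h5.2.1, if_neg h5.2.2]
        exact hm.inv x (hsub x hx h3 h4)
  · intro x hx
    split_ifs with h3 h4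
    · rw [h3]; exact Or.inr h1.2.1
    · rw [h4]; exact Or.inr h2.2.1
    · exact hm.acc x (hsub x hx h3 h4)
  · rintro x hx y hy ⟨w1, w2⟩
    have na : ∀ c ∈ A, ¬ W I (fun x => if x = a then b else if x = b then a else m x) a c := by
      rintro c hc ⟨hw1, hw2⟩
      simp only [if_true] at hw2
      rcases hw2 with hw2 | hw2
      · exact hab hw2.symm
      · exact absurd hw2 (not_lt.2 (h1.2.2 c hc hw1))
    have nb : ∀ c ∈ A, ¬ W I (fun x => if x = a then b else if x = b then a else m x) b c := by
      rintro c hc ⟨hw1, hw2⟩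
      simp only [if_neg hab.symm, if_true] at hw2
      rcases hw2 with hw2 | hw2
      · exact hab hw2
      · exact absurd hw2 (not_lt.2 (h2.2.2 c hc hw1))
    have nx : x ≠ a ∧ x ≠ b := by
      constructor
      · rintro rfl; exact na y hy w1
      · rintro rfl; exact nb y hy w1
    have ny : y ≠ a ∧ y ≠ b := by
      constructor
      · rintro rfl; exact na x hx w2
      · rintro rfl; exact nb x hx w2
    refine hm.st x (hsub x hx nx.1 nx.2) y (hsub y hy ny.1 ny.2) ⟨?_, ?_⟩
    · refine ⟨w1.1, ?_⟩
      have := w1.2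
      simpa only [if_neg nx.1, if_neg nx.2] using this
    · refine ⟨w2.1, ?_⟩
      have := w2.2
      simpa only [if_neg ny.1, if_neg ny.2] using this

theorem exists_top {A : Finset ℕ} {a b : ℕ} (hb : b ∈ A) (hab : b ∈ prefs I a) :
    ∃ c, Top I A a c := by
  obtain ⟨c, hc, hmin⟩ := Finset.exists_min_image (A.filter (· ∈ prefs I a))
    (fun c => (prefs I a).idxOf c) ⟨b, by simp [hb, hab]⟩
  simp only [Finset.mem_filter] at hc hmin
  exact ⟨c, hc.1, hc.2, fun d hd hda => hmin d ⟨hd, hda⟩⟩

/-- a two-colouring of a set without odd cycles -/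
theorem exists_color {f : ℕ → ℕ} {B : Finset ℕ} (hB : ∀ x ∈ B, f x ∈ B)
    (hinj : ∀ x ∈ B, ∀ y ∈ B, f x = f y → x = y)
    (hodd : ∀ x ∈ B, ∀ k, k % 2 = 1 → f^[k] x ≠ x) :
    ∃ χ : ℕ → ℕ, ∀ x ∈ B, (χ (f x) + 1) % 2 = χ x % 2 := by
  classical
  have hit : ∀ x ∈ B, ∀ i, f^[i] x ∈ B := by
    intro x hx i
    induction i with
    | zero => exact hx
    | succ i ih => rw [Function.iterate_succ_apply']; exact hB _ ih
  have hcan : ∀ i, ∀ x ∈ B, ∀ y ∈ B, f^[i] x = f^[i] y → x = y := by
    intro i
    induction i with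
    | zero => intro x _ y _ h; exact h
    | succ i ih =>
      intro x hx y hy h
      rw [Function.iterate_succ_apply, Function.iterate_succ_apply] at h
      exact hinj x hx y hy (ih _ (hB x hx) _ (hB y hy) h)
  have hsub : ∀ x ∈ B, ∀ i j, i ≤ j → f^[i] x = f^[j] x → f^[j - i] x = x := by
    intro x hx i j hij h
    have h1 : f^[i] (f^[j - i] x) = f^[i] x := by
      rw [← Function.iterate_add_apply, Nat.add_sub_cancel' hij, h]
    exact hcan i _ (hit x hx _) x hx h1
  have hper : ∀ x ∈ B, ∃ p, 1 ≤ p ∧ f^[p] x = x := by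
    intro x hx
    obtain ⟨i, -, j, -, hij, h⟩ := Finset.exists_ne_map_eq_of_card_lt_of_maps_to
      (s := Finset.range (B.card + 1)) (t := B) (f := fun i => f^[i] x) (by simp)
      (fun i _ => hit x hx i)
    rcases Nat.lt_or_gt_of_ne hij with h1 | h1
    · exact ⟨j - i, by omega, hsub x hx i j h1.le h⟩
    · exact ⟨i - j, by omega, hsub x hx j i h1.le h.symm⟩
  let r : ℕ → ℕ := fun x => sInf {z | ∃ i, f^[i] x = z}
  have hr : ∀ x, ∃ i, f^[i] x = r x := fun x =>
    Nat.sInf_mem (s := {z | ∃ i, f^[i] x = z}) ⟨x, 0, rfl⟩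
  have hrf : ∀ x ∈ B, r (f x) = r x := by
    intro x hx
    obtain ⟨p, hp, hpx⟩ := hper x hx
    have : {z | ∃ i, f^[i] (f x) = z} = {z | ∃ i, f^[i] x = z} := by
      ext z
      constructor
      · rintro ⟨i, hi⟩
        exact ⟨i + 1, by rw [Function.iterate_succ_apply]; exact hi⟩
      · rintro ⟨i, hi⟩
        refine ⟨i + (p - 1), ?_⟩
        rw [← Function.iterate_succ_apply, show (i + (p - 1)).succ = i + p by omega,
          Function.iterate_add_apply, hpx, hi]
    simp only [r, this]
  refine ⟨fun x => Nat.find (hr x), ?_⟩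
  intro x hx
  have h1 : f^[Nat.find (hr x)] x = r x := Nat.find_spec (hr x)
  have h2 : f^[Nat.find (hr (f x)) + 1] x = r x := by
    rw [Function.iterate_succ_apply, Nat.find_spec (hr (f x)), hrf x hx]
  have h3 := h1.trans h2.symm
  show (Nat.find (hr (f x)) + 1) % 2 = Nat.find (hr x) % 2
  generalize Nat.find (hr x) = u at h3 ⊢
  generalize Nat.find (hr (f x)) = v at h3 ⊢
  rcases le_total u (v + 1) with h4 | h4
  · have h5 := hsub x hx _ _ h4 h3
    have h6 : (v + 1 - u) % 2 ≠ 1 := fun h => hodd x hx _ h h5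
    omega
  · have h5 := hsub x hx _ _ h4 h3.symm
    have h6 : (u - (v + 1)) % 2 ≠ 1 := fun h => hodd x hx _ h h5
    omega

theorem exists_stab (hI : Valid I) (h2 : ∀ l ∈ I, l.length ≤ 2) (hb : ¬ Bad I) :
    ∀ (N : ℕ) (A : Finset ℕ), A.card ≤ N → (∀ a ∈ A, a < I.length) → ∃ m, Stab I A m := by
  classical
  have hlen : ∀ b, (prefs I b).length ≤ 2 := by
    intro b
    unfold prefs
    by_cases hb : b < I.length
    · rw [List.getD_eq_getElem _ _ hb]
      exact h2 _ (List.getElem_mem _)
    · rw [List.getD_eq_default _ _ (by omega)]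
      simp
  intro N
  induction N with
  | zero =>
    intro A hA _
    rw [Nat.le_zero, Finset.card_eq_zero] at hA
    subst hA
    exact ⟨id, by simp, by simp, by simp, by simp⟩
  | succ N ih =>
    intro A hA hlt
    by_cases hE : ∃ a ∈ A, ∃ b, a ≠ b ∧ Top I A a b ∧ Top I A b a
    · obtain ⟨a, ha, b, hab, h3, h4⟩ := hE
      obtain ⟨m, hm⟩ := ih ((A.erase a).erase b) (by
        have e1 := Finset.card_erase_of_mem (a := b) (s := A.erase a)
          (Finset.mem_erase.2 ⟨hab.symm, h3.1⟩)
        have e2 := Finset.card_erase_of_mem ha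
        omega) (fun x hx => hlt x (by simp only [Finset.mem_erase] at hx; exact hx.2.2))
      exact ⟨_, stab_pair ha hab h3 h4 hm⟩
    · have hT : ∀ x, ∃ y, (∃ b ∈ A, b ∈ prefs I x) → Top I A x y := by
        intro x
        by_cases h : ∃ b ∈ A, b ∈ prefs I x
        · obtain ⟨b, hb, hbx⟩ := h
          obtain ⟨c, hc⟩ := exists_top hb hbx
          exact ⟨c, fun _ => hc⟩
        · exact ⟨0, fun h' => absurd h' h⟩
      choose t ht using hT
      set B : Finset ℕ := A.filter (fun x => ∃ b ∈ A, b ∈ prefs I x) with hBdef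
      have hBA : ∀ x ∈ B, x ∈ A ∧ ∃ b ∈ A, b ∈ prefs I x := fun x hx => by
        rw [hBdef, Finset.mem_filter] at hx; exact hx
      have hmut : ∀ x ∈ A, ∀ y, y ∈ prefs I x → x ∈ prefs I y ∧ x ≠ y := fun x hx y hy =>
        ⟨((hI x (hlt x hx)).2 y hy).2.2, ((hI x (hlt x hx)).2 y hy).2.1.symm⟩
      have hBt : ∀ x ∈ B, t x ∈ B ∧ x ≠ t x ∧ prefs I (t x) = [t (t x), x] := by
        intro x hx
        obtain ⟨hxA, hxb⟩ := hBA x hx
        obtain ⟨k1, k2, k3⟩ := ht x hxb
        obtain ⟨k4, k5⟩ := hmut x hxA _ k2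
        have hy : ∃ b ∈ A, b ∈ prefs I (t x) := ⟨x, hxA, k4⟩
        obtain ⟨l1, l2, l3⟩ := ht (t x) hy
        have hne : t (t x) ≠ x := by
          intro h
          apply hE
          exact ⟨x, hxA, t x, k5, ht x hxb, by have h' := ht (t x) hy; rwa [h] at h'⟩
        refine ⟨by rw [hBdef, Finset.mem_filter]; exact ⟨k1, hy⟩, k5, ?_⟩
        have l4 := l3 x hxA k4
        have hl := hlen (t x)
        rcases hp : prefs I (t x) with _ | ⟨p, _ | ⟨q, _ | ⟨z, w⟩⟩⟩
        · rw [hp] at k4; simp at k4
        · rw [hp] at k4 l2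
          simp at k4 l2
          exact absurd (l2.trans k4.symm) hne
        · rw [hp] at k4 l2 l4
          simp only [List.mem_cons, List.not_mem_nil, or_false] at k4 l2
          rcases l2 with l2 | l2
          · rcases k4 with k4 | k4
            · exact absurd (l2.trans k4.symm) hne
            · rw [l2, k4]
          · rcases k4 with k4 | k4
            · exfalso
              rw [← l2, ← k4] at l4
              rw [List.idxOf_cons_self, List.idxOf_cons_ne _ hne.symm, List.idxOf_cons_self] at l4
              omega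
            · exact absurd (l2.trans k4.symm) hne
        · rw [hp] at hl; simp at hl
      have hinj : ∀ x ∈ B, ∀ y ∈ B, t x = t y → x = y := by
        intro x hx y hy h
        have e1 := (hBt x hx).2.2
        have e2 := (hBt y hy).2.2
        rw [h, e2] at e1
        simp at e1
        exact e1.symm
      have hsurj : ∀ y ∈ B, ∃ x ∈ B, t x = y := by
        intro y hy
        have := Finset.surj_on_of_inj_on_of_card_le (s := B) (t := B) (fun x _ => t x)
          (fun x hx => (hBt x hx).1) (fun x y hx hy h => hinj x hx y hy h) le_rfl y hy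
        obtain ⟨x, hx, h⟩ := this
        exact ⟨x, hx, h.symm⟩
      have htop : ∀ y ∈ B, top I y = t y := by
        intro y hy
        obtain ⟨x, hx, rfl⟩ := hsurj y hy
        unfold top
        rw [(hBt x hx).2.2]
        rfl
      have hpr : ∀ y ∈ B, ∃ x ∈ B, top I x = y ∧ prefs I y = [top I y, x] := by
        intro y hy
        obtain ⟨x, hx, rfl⟩ := hsurj y hy
        exact ⟨x, hx, htop x hx, by rw [htop _ hy]; exact (hBt x hx).2.2⟩
      obtain ⟨χ, hχ⟩ := exists_color (f := top I) (B := B)
        (fun x hx => by rw [htop x hx]; exact (hBt x hx).1)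
        (fun x hx y hy h => hinj x hx y hy (by rw [← htop x hx, ← htop y hy]; exact h))
        (fun x hx k hk h => hb ⟨x, hlt x (hBA x hx).1, by
          rw [htop x hx]; exact (hBt x hx).2.1.symm, k, hk, h⟩)
      have hinv : ∀ x ∈ B, (prefs I (top I x)).getD 1 0 = x := by
        intro x hx
        rw [htop x hx, (hBt x hx).2.2]
        rfl
      have hiB : ∀ y ∈ B, (prefs I y).getD 1 0 ∈ B ∧ top I ((prefs I y).getD 1 0) = y ∧
          (prefs I y).getD 1 0 ∈ prefs I y := by
        intro y hy
        obtain ⟨x, hx, rfl, h⟩ := hpr y hy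
        rw [hinv x hx]
        exact ⟨hx, rfl, by rw [h]; simp⟩
      have htB : ∀ x ∈ B, top I x ∈ B ∧ top I x ∈ prefs I x ∧ x ≠ top I x := by
        intro x hx
        rw [htop x hx]
        exact ⟨(hBt x hx).1, (ht x (hBA x hx).2).2.1, (hBt x hx).2.1⟩
      refine ⟨fun x => if x ∈ B then (if χ x % 2 = 0 then top I x else (prefs I x).getD 1 0) else x,
        ?_, ?_, ?_, ?_⟩
      · intro x hx
        split_ifs with h3 h4
        · exact (hBA _ (htB x h3).1).1
        · exact (hBA _ (hiB x h3).1).1
        · exact hx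
      · intro x hx
        beta_reduce
        by_cases h3 : x ∈ B
        · rw [if_pos h3]
          by_cases h4 : χ x % 2 = 0
          · rw [if_pos h4, if_pos (htB x h3).1, if_neg (by have := hχ x h3; omega)]
            exact hinv x h3
          · have h5 := hiB x h3
            have h6 := hχ _ h5.1
            rw [h5.2.1] at h6
            rw [if_neg h4, if_pos h5.1, if_pos (by omega)]
            exact h5.2.1
        · rw [if_neg h3, if_neg h3]
      · intro x hx
        split_ifs with h3 h4
        · exact Or.inr (htB x h3).2.1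
        · exact Or.inr (hiB x h3).2.2
        · exact Or.inl rfl
      · rintro x hx y hy ⟨w1, w2⟩
        have hxB : x ∈ B := by rw [hBdef, Finset.mem_filter]; exact ⟨hx, y, hy, w1.1⟩
        have hyB : y ∈ B := by rw [hBdef, Finset.mem_filter]; exact ⟨hy, x, hx, w2.1⟩
        have key : ∀ a ∈ B, ∀ b, W I (fun x => if x ∈ B then (if χ x % 2 = 0 then top I x else
            (prefs I x).getD 1 0) else x) a b → χ a % 2 = 1 ∧ b = top I a := by
          rintro a ha b ⟨v1, v2⟩
          obtain ⟨z, hz, hza, hpa⟩ := hpr a ha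
          have v3 := htB a ha
          simp only [ha, if_true] at v2
          split_ifs at v2 with h4
          · exfalso
            rcases v2 with v2 | v2
            · exact v3.2.2 v2.symm
            · rw [hpa, List.idxOf_cons_self] at v2
              omega
          · refine ⟨by omega, ?_⟩
            have h5 : (prefs I a).getD 1 0 = z := by rw [hpa]; rfl
            rw [h5] at v2
            have hza' : z ≠ a := by
              intro h
              rw [← hza] at h
              exact (htB z hz).2.2 h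
            have v4 := v2.resolve_left hza'
            by_contra hbt
            rw [hpa] at v4 v1
            simp only [List.mem_cons, List.not_mem_nil, or_false] at v1
            rw [v1.resolve_left hbt] at v4
            exact lt_irrefl _ v4
        obtain ⟨c1, rfl⟩ := key x hxB y w1
        obtain ⟨c2, -⟩ := key _ hyB x w2
        have := hχ x hxB
        omega

end

end Pool.Agent.Q230.CY
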