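import Pool.Agent.Q230.CY.Two
import Pool.Agent.Q230.CY.Mem

/-!
# Lists of length at most two: polynomial time
-/

set_option autoImplicit false

namespace Pool.Agent.Q230.CY

open Pool.Agent.NPC

theorem mem_two {l : List ℕ} (hl : l.length ≤ 2) {a d z : ℕ} (ha : a ∈ l) (hd : d ∈ l)
    (had : a ≠ d) (hz : z ∈ l) : z = a ∨ z = d := by
  rcases l with _ | ⟨p, _ | ⟨q, _ | ⟨r, w⟩⟩⟩
  · simp at ha
  · simp at ha hd
    exact absurd (ha.trans hd.symm) had
  · simp only [List.mem_cons, List.not_mem_nil, or_false] at ha hd hz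
    rcases ha with rfl | rfl
    · rcases hd with rfl | rfl
      · exact absurd rfl had
      · exact hz
    · rcases hd with rfl | rfl
      · exact hz.symm
      · exact absurd rfl had
  · simp at hl

/-- With lists of length at most two, a matching without blocking pairs is cycle stable. -/
theorem stable_cycle {I : Inst} (hI : Valid I) (h2 : ∀ b, (prefs I b).length ≤ 2) {M : List ℕ}
    (hM : IsMatching I M)
    (hs : ∀ a < I.length, ∀ b < I.length, ¬ (Wants I M a b ∧ Wants I M b a)) :
    CycleStable I M := by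
  rintro c ⟨hc1, _, hc3, hc4⟩
  have hlt : ∀ j, j < c.length → c.getD j 0 < I.length := by
    intro j hj
    apply hc3
    rw [List.getD_eq_getElem _ _ hj]
    exact List.getElem_mem _
  have w1 := hc4 0 (by omega)
  rw [Nat.zero_add, Nat.mod_eq_of_lt (by omega)] at w1
  have w2 := hc4 1 (by omega)
  have ha := hlt 0 (by omega)
  have hb := hlt 1 (by omega)
  have hd := hlt ((1 + 1) % c.length) (Nat.mod_lt _ (by omega))
  generalize c.getD 0 0 = a at w1 ha
  generalize c.getD 1 0 = b at w1 w2 hb
  generalize c.getD ((1 + 1) % c.length) 0 = d at w2 hd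
  obtain ⟨-, hba, hab⟩ := (hI a ha).2 b w1.1
  by_cases had : a = d
  · subst had
    exact hs a ha b hb ⟨w1, w2⟩
  have hMb : M.getD b 0 = b := by
    rcases w2.2 with h | h
    · exact h
    rcases (hM.2 b hb).2.2 with h' | h'
    · exact h'
    exfalso
    rcases mem_two (h2 b) hab w2.1 had h' with h3 | h3
    · have h4 := (hM.2 b hb).2.1
      rw [h3] at h4
      rcases w1.2 with h5 | h5
      · exact hba (h4.symm.trans h5)
      · rw [h4] at h5
        exact lt_irrefl _ h5
    · rw [h3] at h
      exact lt_irrefl _ h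
  exact hs a ha b hb ⟨w1, hab, Or.inl hMb⟩

theorem len_prefs {I : Inst} (h2 : ∀ l ∈ I, l.length ≤ 2) (b : ℕ) : (prefs I b).length ≤ 2 := by
  unfold prefs
  by_cases hb : b < I.length
  · rw [List.getD_eq_getElem _ _ hb]
    exact h2 _ (List.getElem_mem _)
  · rw [List.getD_eq_default _ _ (by omega)]
    simp

theorem exists_cs {I : Inst} (hI : Valid I) (h2 : ∀ l ∈ I, l.length ≤ 2) (hb : ¬ Bad I) :
    ∃ M, IsMatching I M ∧ CycleStable I M := by
  obtain ⟨m, hm⟩ := exists_stab hI h2 hb (Finset.range I.length).card (Finset.range I.length)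
    le_rfl (fun a ha => Finset.mem_range.1 ha)
  have hg : ∀ a < I.length, ((List.range I.length).map m).getD a 0 = m a := by
    intro a ha
    rw [List.getD_eq_getElem _ _ (by simpa using ha)]
    simp
  have hml : ∀ a < I.length, m a < I.length := fun a ha =>
    Finset.mem_range.1 (hm.mem a (Finset.mem_range.2 ha))
  have hM : IsMatching I ((List.range I.length).map m) := by
    refine ⟨by simp, fun a ha => ?_⟩
    rw [hg a ha, hg _ (hml a ha)]
    exact ⟨hml a ha, hm.inv a (Finset.mem_range.2 ha), hm.acc a (Finset.mem_range.2 ha)⟩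
  refine ⟨_, hM, stable_cycle hI (len_prefs h2) hM ?_⟩
  rintro a ha b hb' ⟨w1, w2⟩
  unfold Wants at w1 w2
  rw [hg a ha] at w1
  rw [hg b hb'] at w2
  exact hm.st a (Finset.mem_range.2 ha) b (Finset.mem_range.2 hb') ⟨w1, w2⟩

theorem cs_two_iff {L : ℕ} (hL : L ≤ 2) (I : Inst) :
    CS L I ↔ Valid I ∧ (∀ l ∈ I, l.length ≤ L) ∧ ¬ Bad I := by
  constructor
  · rintro ⟨hI, h, M, hM, hs⟩
    exact ⟨hI, h, not_bad hI (fun l hl => (h l hl).trans hL) hM hs.three⟩
  · rintro ⟨hI, h, hb⟩
    exact ⟨hI, h, exists_cs hI (fun l hl => (h l hl).trans hL) hb⟩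

theorem cs3_two_iff {L : ℕ} (hL : L ≤ 2) (I : Inst) :
    CS3 L I ↔ Valid I ∧ (∀ l ∈ I, l.length ≤ L) ∧ ¬ Bad I := by
  constructor
  · rintro ⟨hI, h, M, hM, hs⟩
    exact ⟨hI, h, not_bad hI (fun l hl => (h l hl).trans hL) hM hs⟩
  · rintro ⟨hI, h, hb⟩
    obtain ⟨M, hM, hs⟩ := exists_cs hI (fun l hl => (h l hl).trans hL) hb
    exact ⟨hI, h, M, hM, hs.three⟩

/-! ### The test -/

/-- a clamped step to the first choice -/
def stp (I : Inst) (a : ℕ) : ℕ := min (top I a) I.length

/-- `k` clamped steps, `k` at most the number of agents -/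
def itr (I : Inst) (k a : ℕ) : ℕ :=
  (stp I)^[((List.range I.length).filter (fun i => decide (i < k))).length] a

/-- the test for an odd cycle of first choices -/
def oddB (I : Inst) : Bool :=
  (List.range I.length).any fun a => !decide (top I a = a) &&
    (List.range (I.length + 1)).any fun k => decide (k % 2 = 1) && decide (itr I k a = a)

theorem itr_eq {I : Inst} (hI : Valid I) {a k : ℕ} (ha : a < I.length) (hk : k ≤ I.length) :
    itr I k a = (top I)^[k] a := by
  have h1 : ((List.range I.length).filter (fun i => decide (i < k))).length = k := by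
    rw [← List.Ico.zero_bot, List.Ico.filter_lt, List.Ico.length]
    omega
  unfold itr
  rw [h1]
  clear h1 hk
  induction k with
  | zero => rfl
  | succ k ih =>
    rw [Function.iterate_succ_apply', Function.iterate_succ_apply', ih]
    unfold stp
    have := top_lt hI (iter_lt hI ha k)
    omega

theorem oddB_iff {I : Inst} (hI : Valid I) : oddB I = true ↔ Bad I := by
  simp only [oddB, Bad, List.any_eq_true, List.mem_range, Bool.and_eq_true, Bool.not_eq_true',
    decide_eq_false_iff_not, decide_eq_true_eq]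
  constructor
  · rintro ⟨a, ha, hne, k, hk, hk2, h⟩
    rw [itr_eq hI ha (by omega)] at h
    exact ⟨a, ha, hne, k, hk2, h⟩
  · rintro ⟨a, ha, hne, k, hk2, h⟩
    have hp : Function.IsPeriodicPt (top I) k a := h
    have hdvd := hp.minimalPeriod_dvd
    have hpos : 0 < Function.minimalPeriod (top I) a := hp.minimalPeriod_pos (by omega)
    have hle : Function.minimalPeriod (top I) a ≤ I.length := by
      have h1 := Finset.card_le_card_of_injOn (s := Finset.range (Function.minimalPeriod (top I) a))
        (t := Finset.range I.length) (fun i => (top I)^[i] a)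
        (fun i _ => by simpa using iter_lt hI ha i)
        (fun i hi j hj hij => Function.iterate_injOn_Iio_minimalPeriod
          (by simpa using hi) (by simpa using hj) hij)
      simpa using h1
    refine ⟨a, ha, hne, Function.minimalPeriod (top I) a, by omega, ?_, ?_⟩
    · obtain ⟨q, hq⟩ := hdvd
      by_contra h0
      have : Function.minimalPeriod (top I) a % 2 = 0 := by omega
      rw [hq, Nat.mul_mod, this] at hk2
      simp at hk2
    · rw [itr_eq hI ha hle]
      exact Function.iterate_minimalPeriod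

section poly

variable {α : Type} [TEnc α]

theorem poly_top {I : α → Inst} {a : α → ℕ} (hI : NPC.Poly I) (ha : NPC.Poly a) :
    NPC.Poly (fun x => top (I x) (a x)) := by
  refine (Poly.getD (d := a) (poly_prefs hI ha) (NPC.Poly.const 0) ha).congr fun x => ?_
  unfold top
  rcases prefs (I x) (a x) with _ | ⟨u, t⟩ <;> rfl

theorem sz_iter (I : Inst) (a k : ℕ) : sz ((stp I)^[k] a) ≤ sz a + (4 * I.length + 1) := by
  cases k with
  | zero => exact Nat.le_add_right _ _
  | succ k =>
    rw [Function.iterate_succ_apply']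
    generalize (stp I)^[k] a = b
    have h1 : stp I b ≤ I.length := by unfold stp; omega
    have h2 := sz_nat_le (stp I b)
    have h3 := Poly.size_le_self (stp I b)
    omega

theorem poly_itr₀ : NPC.Poly (fun p : Inst × ℕ × ℕ => itr p.1 p.2.1 p.2.2) := by
  have h1 : NPC.Poly (fun p : Inst × ℕ × ℕ => p.1) := Poly.fst Poly.id
  have h2 : NPC.Poly (fun p : Inst × ℕ × ℕ => p.2.1) := Poly.fst (Poly.snd Poly.id)
  have h3 : NPC.Poly (fun p : Inst × ℕ × ℕ => p.2.2) := Poly.snd (Poly.snd Poly.id)
  unfold itr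
  refine Poly.iterLen (l := fun p : Inst × ℕ × ℕ =>
      (List.range p.1.length).filter (fun i => decide (i < p.2.1)))
    (s := fun p => p.2.2) (F := fun p a => stp p.1 a) ?_ h3 ?_
    (Polynomial.C 5 * Polynomial.X + Polynomial.C 1) ?_
  · exact Poly.filter (p := fun (x : Inst × ℕ × ℕ) i => decide (i < x.2.1)) (UPoly.length h1).range
      (Poly.decide_lt (Poly.snd Poly.id) (h2.comp (Poly.fst Poly.id)))
  · have h1' : NPC.Poly (fun p : (Inst × ℕ × ℕ) × ℕ => p.1.1) := h1.comp (Poly.fst Poly.id)
    exact Poly.min (poly_top h1' (Poly.snd Poly.id)) (Poly.length h1')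
  · rintro ⟨I, k, a⟩ j _
    have e1 : sz (I, k, a) = sz I + sz (k, a) + 1 := sz_pair I (k, a)
    have e2 : sz (k, a) = sz k + sz a + 1 := sz_pair k a
    have e3 := sz_iter I a j
    have e4 := length_lt_sz I
    simp only [Polynomial.eval_add, Polynomial.eval_mul, Polynomial.eval_C, Polynomial.eval_X]
    show sz ((stp I)^[j] a) ≤ _
    omega

theorem poly_itr {I : α → Inst} {k a : α → ℕ} (hI : NPC.Poly I) (hk : NPC.Poly k)
    (ha : NPC.Poly a) : NPC.Poly (fun x => itr (I x) (k x) (a x)) :=
  poly_itr₀.comp (Poly.pair hI (Poly.pair hk ha))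

theorem poly_oddB {I : α → Inst} (hI : NPC.Poly I) : NPC.Poly (fun x => oddB (I x)) := by
  unfold oddB
  refine Poly.any (p := fun x a => !decide (top (I x) a = a) &&
    (List.range ((I x).length + 1)).any fun k => decide (k % 2 = 1) &&
      decide (itr (I x) k a = a)) (UPoly.length hI).range ?_
  have hI' : NPC.Poly (fun x : α × ℕ => I x.1) := hI.comp (Poly.fst Poly.id)
  have ha : NPC.Poly (fun x : α × ℕ => x.2) := Poly.snd Poly.id
  refine Poly.and (Poly.not (Poly.decide_eq (poly_top hI' ha) ha)) ?_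
  refine Poly.any (p := fun (x : α × ℕ) k => decide (k % 2 = 1) &&
      decide (itr (I x.1) k x.2 = x.2)) (UPoly.add (UPoly.length hI') (UPoly.const 1)).range ?_
  have hI2 : NPC.Poly (fun x : (α × ℕ) × ℕ => I x.1.1) := hI'.comp (Poly.fst Poly.id)
  have ha2 : NPC.Poly (fun x : (α × ℕ) × ℕ => x.1.2) := ha.comp (Poly.fst Poly.id)
  have hk2 : NPC.Poly (fun x : (α × ℕ) × ℕ => x.2) := Poly.snd Poly.id
  exact Poly.and (Poly.decide_eq (Poly.mod hk2 (NPC.Poly.const 2)) (NPC.Poly.const 1))
    (Poly.decide_eq (poly_itr hI2 hk2 ha2) ha2)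

end poly

/-- the decision procedure for short lists -/
def shB (L : ℕ) (I : Inst) : Bool := (validB I && lenB L I) && !oddB I

theorem shB_iff (L : ℕ) (I : Inst) :
    shB L I = true ↔ Valid I ∧ (∀ l ∈ I, l.length ≤ L) ∧ ¬ Bad I := by
  unfold shB
  rw [Bool.and_eq_true, Bool.and_eq_true, validB_iff, lenB_iff, and_assoc, Bool.not_eq_true']
  refine and_congr_right fun hI => and_congr_right fun _ => ?_
  rw [← oddB_iff hI, Bool.not_eq_true]

theorem poly_shB (L : ℕ) : NPC.Poly (fun I : Inst => shB L I) :=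
  Poly.and (Poly.and (poly_validB Poly.id) (poly_lenB L Poly.id)) (Poly.not (poly_oddB Poly.id))

theorem cs_inP {L : ℕ} (hL : L ≤ 2) : InPP (CS L) :=
  inPP_of (poly_shB L) fun I => (cs_two_iff hL I).trans (shB_iff L I).symm

theorem cs3_inP {L : ℕ} (hL : L ≤ 2) : InPP (CS3 L) :=
  inPP_of (poly_shB L) fun I => (cs3_two_iff hL I).trans (shB_iff L I).symm

end Pool.Agent.Q230.CY
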